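import Pool.Agent.D0H10.Q4.StmA

/-!
Project Q4, module A6: the algebraic identity for `G`.
-/

set_option autoImplicit false

open Filter Complex
open scoped Topology PeriodPair
open H667R3 hiding sq
open Pool.Agent.TH936.CM Pool.Agent.W192.HK

namespace Pool.Agent.D0H84.Q4

open H385 (ZI RQ im1 nrm)
open Pool.Agent.H304R3.HK (tc HC LH)
open Pool.Agent.Y699
open Pool.Agent.W164.RC (tc_mul)
open Pool.Agent.D0H10.Q4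

section alg

lemma alg1 {P Q P2 Q2 c a : ℂ} (hQ : Q ^ 2 = 4 * P ^ 3 - 4 * P) (hc : c ^ 2 = -2)
    (ha : a ^ 2 = 1 - 2 * a) (hX : P - a ≠ 0) (hQ2 : Q2 ≠ 0) (hm : P ^ 2 + 2 * P - 1 ≠ 0)
    (h1 : P2 = P - ((6 * P ^ 2 - 2) * (P - a) - (Q - 2 * c * a) * Q) / (2 * (P - a) ^ 2))
    (h2 : Q2 = Q -
      (((12 * P * Q) * (P - a) + (6 * P ^ 2 - 2) * Q
      - ((6 * P ^ 2 - 2) * Q + (Q - 2 * c * a) * (6 * P ^ 2 - 2))) * (2 * (P - a) ^ 2)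
      - ((6 * P ^ 2 - 2) * (P - a) - (Q - 2 * c * a) * Q) * (2 * (2 * (P - a) * Q)))
      / (2 * (P - a) ^ 2) ^ 2) :
    -2 * (P2 ^ 2 - 2 * P2 - 1) / Q2 = -2 * c * (P ^ 2 + 1) / (P ^ 2 + 2 * P - 1) := by
  obtain ⟨X, hXd⟩ : ∃ X, X = P - a := ⟨_, rfl⟩
  rw [← hXd] at h1 h2 hX
  have k1 : P2 * X ^ 2 = a * ((P ^ 2 - 2 * P - 1) - c * Q) := by
    have : P2 * (2 * X ^ 2) = 2 * X ^ 2 * P - ((6 * P ^ 2 - 2) * X - (Q - 2 * c * a) * Q) := by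
      rw [h1]; field_simp
    subst hXd
    linear_combination (1 / 2) * this + (1 / 2) * hQ + P * ha
  have k2 : Q2 * X ^ 3 = 2 * ((3 * a - 1) * (P + 2 + a) * Q +
      c * (a * P ^ 3 + (3 - 6 * a) * P ^ 2 - 3 * a * P + (2 * a - 1))) := by
    have h4 : (4 * X) * (Q2 * X ^ 3) = 4 * X ^ 4 * Q - ((((12 * P * Q) * X + (6 * P ^ 2 - 2) * Q
      - ((6 * P ^ 2 - 2) * Q + (Q - 2 * c * a) * (6 * P ^ 2 - 2))) * (2 * X ^ 2)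
      - ((6 * P ^ 2 - 2) * X - (Q - 2 * c * a) * Q) * (2 * (2 * X * Q)))) := by
      rw [h2]; field_simp; ring
    apply mul_left_cancel₀ (a := 4 * X) (mul_ne_zero (by norm_num) hX)
    rw [h4]
    subst hXd
    linear_combination (-4*Q*P + 4*Q*a + 8*P*c*a - 8*c*a^2) * hQ + (-12*Q*P^2 + 8*Q*P*a - 16*Q*P + 4*Q*a^2 + 16*Q*a + 24*P^3*c - 24*P^2*c*a - 8*P*c + 8*c*a) * ha
  have hm2 : P ^ 2 + 2 * P - 1 = X * (P + a + 2) := by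
    subst hXd
    linear_combination ha
  have key : (a ^ 2 * ((P ^ 2 - 2 * P - 1) - c * Q) ^ 2 -
      2 * a * ((P ^ 2 - 2 * P - 1) - c * Q) * X ^ 2 - X ^ 4) * (P + a + 2) =
      2 * c * (P ^ 2 + 1) * ((3 * a - 1) * (P + 2 + a) * Q +
      c * (a * P ^ 3 + (3 - 6 * a) * P ^ 2 - 3 * a * P + (2 * a - 1))) := by
    subst hXd
    linear_combination (P*c^2*a^2 + c^2*a^3 + 2*c^2*a^2) * hQ + (-2*P^5*a + 4*P^4*a^2 + 12*P^4*a - 6*P^4 + 4*P^3*a^3 + 8*P^3*a^2 + 4*P^3*a - 4*P^2*a^2 + 8*P^2*a - 4*P^2 - 4*P*a^3 - 8*P*a^2 + 6*P*a - 4*a + 2) * hc + (-2*Q*P^3*c - 2*Q*P^2*c*a - 4*Q*P^2*c + 2*Q*P*c*a - 2*Q*P*c + 2*Q*c*a^2 + 2*Q*c*a - 4*Q*c + P^5 + P^4*a - 10*P^4 - 10*P^3*a - 2*P^2*a^2 - 4*P^2*a - 8*P^2 + 7*P*a^2 + 12*P*a - a^3 + 2*a^2 + 4) * ha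
  rw [div_eq_div_iff hQ2 hm]
  have hX4 : X ^ 4 ≠ 0 := pow_ne_zero _ hX
  apply mul_left_cancel₀ hX4
  have e1 : X ^ 4 * (P2 ^ 2 - 2 * P2 - 1) = a ^ 2 * ((P ^ 2 - 2 * P - 1) - c * Q) ^ 2 -
      2 * a * ((P ^ 2 - 2 * P - 1) - c * Q) * X ^ 2 - X ^ 4 := by
    linear_combination (P2 * X ^ 2 + a * ((P ^ 2 - 2 * P - 1) - c * Q) - 2 * X ^ 2) * k1
  calc X ^ 4 * (-2 * (P2 ^ 2 - 2 * P2 - 1) * (P ^ 2 + 2 * P - 1))
      = -2 * (X ^ 4 * (P2 ^ 2 - 2 * P2 - 1)) * (P ^ 2 + 2 * P - 1) := by ring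
    _ = -2 * X * (2 * c * (P ^ 2 + 1) * ((3 * a - 1) * (P + 2 + a) * Q +
      c * (a * P ^ 3 + (3 - 6 * a) * P ^ 2 - 3 * a * P + (2 * a - 1)))) := by
        rw [e1, hm2, ← key]; ring
    _ = X ^ 4 * (-2 * c * (P ^ 2 + 1) * Q2) := by
        linear_combination (2 * c * (P ^ 2 + 1) * X) * k2

lemma alg2 {x y X Y a : ℂ} (hy : y ^ 2 = 4 * x ^ 3 - 4 * x) 
    (ha : a ^ 2 = 2 * a + 1) (hd : x - a ≠ 0) 
    (h1 : X = x - ((6 * x ^ 2 - 2) * (x - a) - (y - -2 * (a + 1)) * y) / (2 * (x - a) ^ 2))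
    (h2 : Y = y -
      (((12 * x * y) * (x - a) + (6 * x ^ 2 - 2) * y
      - ((6 * x ^ 2 - 2) * y + (y - -2 * (a + 1)) * (6 * x ^ 2 - 2))) * (2 * (x - a) ^ 2)
      - ((6 * x ^ 2 - 2) * (x - a) - (y - -2 * (a + 1)) * y) * (2 * (2 * (x - a) * y)))
      / (2 * (x - a) ^ 2) ^ 2) :
    (X ^ 2 + 2 * X - 1 - (a - 1) * Y) * (y - 2 * (a - 1) * x) ^ 2 =
      16 * (a - 1) * (x - 1) * x ^ 2 * (X + 1) := by
  obtain ⟨d, hdd⟩ : ∃ d, d = x - a := ⟨_, rfl⟩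
  rw [← hdd] at h1 h2 hd
  have k1 : X * d ^ 2 = a * ((x ^ 2 + 2 * x - 1) + (a - 1) * y) := by
    have : X * (2 * d ^ 2) = 2 * d ^ 2 * x - ((6 * x ^ 2 - 2) * d - (y - -2 * (a + 1)) * y) := by
      rw [h1]; field_simp
    subst hdd
    linear_combination (1 / 2) * this + (1 / 2) * hy + (-y + x) * ha
  have k2 : Y * d ^ 3 = -2 * ((3 * a + 1) * (x + a - 2) * y +
      (a - 1) * (a * x ^ 3 + (3 + 6 * a) * x ^ 2 - 3 * a * x - (2 * a + 1))) := by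
    have h4 : (4 * d) * (Y * d ^ 3) = 4 * d ^ 4 * y - ((((12 * x * y) * d + (6 * x ^ 2 - 2) * y
      - ((6 * x ^ 2 - 2) * y + (y - -2 * (a + 1)) * (6 * x ^ 2 - 2))) * (2 * d ^ 2)
      - ((6 * x ^ 2 - 2) * d - (y - -2 * (a + 1)) * y) * (2 * (2 * d * y)))) := by
      rw [h2]; field_simp; ring
    apply mul_left_cancel₀ (a := 4 * d) (mul_ne_zero (by norm_num) hd)
    rw [h4]
    subst hdd
    linear_combination (-4*y*x + 4*y*a - 8*x*a - 8*x + 8*a^2 + 8*a) * hy + (-12*y*x^2 + 8*y*x*a + 16*y*x + 4*y*a^2 - 16*y*a + 8*x^4 - 8*x^3*a + 24*x^3 - 24*x^2*a - 24*x^2 + 24*x*a - 8*x + 8*a) * ha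
  have key : (a ^ 2 * ((x ^ 2 + 2 * x - 1) + (a - 1) * y) ^ 2 +
      2 * a * ((x ^ 2 + 2 * x - 1) + (a - 1) * y) * d ^ 2 - d ^ 4 + 2 * (a - 1) * d *
      ((3 * a + 1) * (x + a - 2) * y +
      (a - 1) * (a * x ^ 3 + (3 + 6 * a) * x ^ 2 - 3 * a * x - (2 * a + 1)))) *
      (y - 2 * (a - 1) * x) ^ 2 = 16 * (a - 1) * (x - 1) * x ^ 2 * d ^ 2 *
      (a * ((x ^ 2 + 2 * x - 1) + (a - 1) * y) + d ^ 2) := by
    subst hdd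
    linear_combination (y^2*a^4 - 2*y^2*a^3 + y^2*a^2 + 2*y*x^2*a^3 + 6*y*x^2*a^2 - 6*y*x^2*a - 2*y*x^2 - 4*y*x*a^5 + 12*y*x*a^4 - 12*y*x*a^3 - 8*y*x*a^2 + 8*y*x*a + 4*y*x - 4*y*a^4 + 12*y*a^3 - 4*y*a^2 - 4*y*a + 2*x^4*a^3 - 3*x^4*a^2 + 4*x^4*a - x^4 - 6*x^3*a^4 - 8*x^3*a^3 + 32*x^3*a^2 - 8*x^3*a - 2*x^3 + 4*x^2*a^6 - 16*x^2*a^5 + 12*x^2*a^4 + 46*x^2*a^3 - 76*x^2*a^2 + 2*x^2*a + 16*x^2 + 16*x*a^5 - 62*x*a^4 + 64*x*a^3 + 8*x*a^2 - 16*x*a - 2*x + 3*a^4 - 8*a^3 + a^2 + 2*a) * hy + (-8*y*x^5*a^2 - 4*y*x^5*a + 12*y*x^5 + 16*y*x^4*a^2 + 16*y*x^4*a - 32*y*x^4 + 32*y*x^3*a^3 - 104*y*x^3*a^2 + 96*y*x^3*a - 24*y*x^3 - 16*y*x^2*a^4 + 56*y*x^2*a^3 - 56*y*x^2*a^2 - 8*y*x^2*a + 24*y*x^2 - 12*y*x*a^3 + 36*y*x*a^2 - 24*y*x*a + 8*x^7*a - 12*x^7 + 8*x^6*a^3 - 36*x^6*a^2 - 16*x^6*a + 28*x^6 + 8*x^5*a^4 + 32*x^5*a^3 - 112*x^5*a^2 + 192*x^5*a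 - 92*x^5 - 48*x^4*a^4 + 120*x^4*a^3 - 144*x^4*a^2 + 72*x^4*a + 8*x^3*a^4 - 16*x^3*a^3 + 76*x^3*a^2 - 160*x^3*a + 72*x^3 + 12*x^2*a^4 - 80*x^2*a^3 + 148*x^2*a^2 - 56*x^2*a - 8*x^2 - 12*x*a^2 + 8*x*a) * ha
  apply mul_left_cancel₀ (pow_ne_zero 4 hd)
  have e1 : d ^ 4 * (X ^ 2 + 2 * X - 1 - (a - 1) * Y) =
      a ^ 2 * ((x ^ 2 + 2 * x - 1) + (a - 1) * y) ^ 2 +
      2 * a * ((x ^ 2 + 2 * x - 1) + (a - 1) * y) * d ^ 2 - d ^ 4 + 2 * (a - 1) * d *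
      ((3 * a + 1) * (x + a - 2) * y +
      (a - 1) * (a * x ^ 3 + (3 + 6 * a) * x ^ 2 - 3 * a * x - (2 * a + 1))) := by
    linear_combination (X * d ^ 2 + a * ((x ^ 2 + 2 * x - 1) + (a - 1) * y) + 2 * d ^ 2) * k1 - ((a - 1) * d) * k2
  calc d ^ 4 * ((X ^ 2 + 2 * X - 1 - (a - 1) * Y) * (y - 2 * (a - 1) * x) ^ 2)
      = (d ^ 4 * (X ^ 2 + 2 * X - 1 - (a - 1) * Y)) * (y - 2 * (a - 1) * x) ^ 2 := by ring
    _ = 16 * (a - 1) * (x - 1) * x ^ 2 * d ^ 2 *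
      (a * ((x ^ 2 + 2 * x - 1) + (a - 1) * y) + d ^ 2) := by rw [e1, key]
    _ = d ^ 4 * (16 * (a - 1) * (x - 1) * x ^ 2 * (X + 1)) := by
        linear_combination (-16 * (a - 1) * (x - 1) * x ^ 2 * d ^ 2) * k1

/-- the square -/
lemma alg3 {P Q X Y s : ℂ} (hQ : Q ^ 2 = 4 * P ^ 3 - 4 * P) (hQ0 : Q ≠ 0) (hs : s ^ 2 = 2)
    (hm : P ^ 2 + 2 * P - 1 ≠ 0)
    (h1 : X = -2 * P + (6 * P ^ 2 - 2) ^ 2 / (4 * Q ^ 2))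
    (h2 : Y = (-2 * Q +
      ((2 * (6 * P ^ 2 - 2) * (12 * P * Q)) * (4 * Q ^ 2)
        - (6 * P ^ 2 - 2) ^ 2 * (4 * (2 * Q * (6 * P ^ 2 - 2))))
      / (4 * Q ^ 2) ^ 2) / 2) :
    Q ^ 2 * (X + 1) = (P ^ 2 + 2 * P - 1) ^ 2 ∧ 
    (-2 * (P ^ 2 - 2 * P - 1) / Q + 2 * s * (P ^ 2 + 1) / (P ^ 2 + 2 * P - 1)) ^ 2 * (X + 1) =
      4 * (X ^ 2 + 2 * X - 1 - s * Y) := by
  have r1 : Q ^ 2 * X = (P ^ 2 + 1) ^ 2 := by
    have : 4 * (Q ^ 2 * X) = -8 * P * Q ^ 2 + (6 * P ^ 2 - 2) ^ 2 := by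
      rw [h1]; field_simp; ring
    linear_combination (1 / 4) * this - 2 * P * hQ
  have r2 : Q ^ 3 * Y = 2 * (P ^ 2 + 1) * (P ^ 2 - 2 * P - 1) * (P ^ 2 + 2 * P - 1) := by
    have : 16 * (Q ^ 3 * Y) = -16 * Q ^ 4 + ((2 * (6 * P ^ 2 - 2) * (12 * P)) * (4 * Q ^ 2)
        - (6 * P ^ 2 - 2) ^ 2 * (4 * (2 * (6 * P ^ 2 - 2)))) / 2 := by
      rw [h2]; field_simp; ring
    linear_combination (1 / 16) * this - (Q ^ 2 + 4 * P ^ 3 - 4 * P - 18 * P ^ 3 + 6 * P) * hQ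
  have r3 : Q ^ 2 * (X + 1) = (P ^ 2 + 2 * P - 1) ^ 2 := by
    linear_combination r1 + hQ
  have r4 : Q ^ 2 * (X - 1) = (P ^ 2 - 2 * P - 1) ^ 2 := by
    linear_combination r1 - hQ
  refine ⟨r3, ?_⟩
  have hX1 : X + 1 = (P ^ 2 + 2 * P - 1) ^ 2 / Q ^ 2 := by
    rw [← r3]; field_simp
  have e1 : (-2 * (P ^ 2 - 2 * P - 1) / Q + 2 * s * (P ^ 2 + 1) / (P ^ 2 + 2 * P - 1)) ^ 2 * (X + 1) =
      4 * ((s * (P ^ 2 + 1) * Q - (P ^ 2 - 2 * P - 1) * (P ^ 2 + 2 * P - 1)) / Q ^ 2) ^ 2 := by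
    rw [hX1]
    generalize P ^ 2 + 2 * P - 1 = m at hm ⊢
    generalize P ^ 2 - 2 * P - 1 = n
    field_simp
    ring
  rw [e1]
  have hQ4 : Q ^ 4 ≠ 0 := pow_ne_zero _ hQ0
  apply mul_left_cancel₀ hQ4
  have e2 : Q ^ 4 * (4 * ((s * (P ^ 2 + 1) * Q - (P ^ 2 - 2 * P - 1) * (P ^ 2 + 2 * P - 1)) / Q ^ 2) ^ 2) =
      4 * (s * (P ^ 2 + 1) * Q - (P ^ 2 - 2 * P - 1) * (P ^ 2 + 2 * P - 1)) ^ 2 := by
    field_simp
  rw [e2]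
  have e3 : Q ^ 4 * ((X - 1) * (X + 1)) = (P ^ 2 - 2 * P - 1) ^ 2 * (P ^ 2 + 2 * P - 1) ^ 2 := by
    rw [← r3, ← r4]; ring
  linear_combination (4 * (P ^ 2 + 1) ^ 2 * Q ^ 2) * hs - 8 * Q ^ 2 * r1 - 4 * e3 + 4 * s * Q * r2

end alg

variable {L : PeriodPair} {Ω s : ℂ}

/-- a point killed by an odd Gaussian integer -/
def Odd' (L : PeriodPair) (z : ℂ) : Prop := ∃ D : ZI, IsCoprime D pi1 ∧ tc D * z ∈ L.lattice

lemma tc8 : tc (8 : ZI) = 8 := by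
  have := tc_int 8
  push_cast at this
  exact this

lemma nmem (h : GLat L Ω) {z : ℂ} (hz : Odd' L z) (c r : ZI) (hr : ¬ (8 : ZI) ∣ r) :
    tc c * z + Ω * tc r / 8 ∉ L.lattice := by
  obtain ⟨D, hD, hz⟩ := hz
  intro h'
  have h1 := lat_mul h.lat D h'
  have h2 := lat_mul h.lat c hz
  have h3 := sub_mem h1 h2
  have e : tc D * (tc c * z + Ω * tc r / 8) - tc c * (tc D * z) = Ω * tc (D * r) / tc 8 := by
    rw [tc_mul, tc8]; ring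
  rw [e] at h3
  refine div_notMem h.lat (by decide : (8 : ZI) ≠ 0) ?_ h3
  intro h4
  have h5 : IsCoprime D (8 : ZI) := by
    have h6 : IsCoprime D (pi1 ^ 6) := hD.pow_right
    exact h6.of_isCoprime_of_dvd_right ⟨⟨0, -1⟩, by decide⟩
  exact hr (h5.symm.dvd_of_dvd_mul_left h4)

lemma not8 {r : ZI} (h : r.re % 8 ≠ 0 ∨ r.im % 8 ≠ 0) : ¬ (8 : ZI) ∣ r := by
  rintro ⟨c, hc⟩
  have r1 := congrArg Zsqrtd.re hc
  have r2 := congrArg Zsqrtd.im hc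
  simp only [Zsqrtd.re_mul, Zsqrtd.im_mul] at r1 r2
  have e1 : (8 : ZI).re = 8 := rfl
  have e2 : (8 : ZI).im = 0 := rfl
  rw [e1, e2] at r1 r2
  omega

/-- membership in the form in which it is used -/
lemma nmem' (h : GLat L Ω) {z : ℂ} (hz : Odd' L z) (c a b : ℤ) (hr : a % 8 ≠ 0 ∨ b % 8 ≠ 0) {w : ℂ}
    (hw : w = c * z + Ω * (a + b * I) / 8) : w ∉ L.lattice := by
  have h1 := nmem h hz (c : ZI) ⟨a, b⟩ (not8 hr)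
  rw [tc_int] at h1
  have e : tc (⟨a, b⟩ : ZI) = a + b * I := by unfold tc; simp
  rw [e] at h1
  rwa [hw]

/-- the formula for the square of `G` -/
theorem gg_sq (h : NL L Ω s) {z : ℂ} (hz : Odd' L z) :
    ℘[L] (2 * z + Ω / 4) + 1 ≠ 0 ∧
    GG L Ω z ^ 2 * (℘[L] (2 * z + Ω / 4) + 1) = 4 * (℘[L] (2 * z + Ω / 4) ^ 2 +
      2 * ℘[L] (2 * z + Ω / 4) - 1 - s * ℘'[L] (2 * z + Ω / 4)) := by
  have hg := h.gl
  -- the points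
  obtain ⟨w, hw⟩ : ∃ w, w = z + Ω / 8 := ⟨_, rfl⟩
  obtain ⟨T, hT⟩ : ∃ T, T = I * (Ω / 4) := ⟨_, rfl⟩
  have n2w : 2 * w ∉ L.lattice := nmem' hg hz 2 2 0 (Or.inl (by decide)) (by rw [hw]; push_cast; ring)
  have nT : T ∉ L.lattice := nmem' hg hz 0 0 2 (Or.inr (by decide)) (by rw [hT]; push_cast; ring)
  have nwT : w + T ∉ L.lattice := nmem' hg hz 1 1 2 (Or.inl (by decide)) (by rw [hw, hT]; push_cast; ring)
  have nwT' : w - T ∉ L.lattice := nmem' hg hz 1 1 (-2) (Or.inl (by decide)) (by rw [hw, hT]; push_cast; ring)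
  have n2 : 2 * (w + T) ∉ L.lattice := nmem' hg hz 2 2 4 (Or.inl (by decide)) (by rw [hw, hT]; push_cast; ring)
  have nw := GLat.two_notMem n2w
  have nh : I * (Ω / 2) ∉ L.lattice := nmem' hg hz 0 0 4 (Or.inr (by decide)) (by push_cast; ring)
  have nh1 : 2 * w + I * (Ω / 2) ∉ L.lattice := nmem' hg hz 2 2 4 (Or.inl (by decide)) (by rw [hw]; push_cast; ring)
  have nh2 : 2 * w - I * (Ω / 2) ∉ L.lattice := nmem' hg hz 2 2 (-4) (Or.inl (by decide)) (by rw [hw]; push_cast; ring)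
  have e2w : 2 * w = 2 * z + Ω / 4 := by rw [hw]; ring
  -- the values
  have hQ := hg.eqn nw
  have hQ0 := wp'_ne_zero L n2w
  have hQ2 := wp'_ne_zero L n2
  have hx4 : ℘[L] T = -(1 + s) := by rw [hT, wp_I hg.lat, h.x4]
  have hy4 : ℘'[L] T = 2 * (s * I) * -(1 + s) := by rw [hT, wp'_I hg.lat, h.y4]; ring
  have hX1 : ℘[L] (2 * w) + 1 ≠ 0 := by
    intro h0
    have h1 : ℘[L] (2 * w) = ℘[L] (I * (Ω / 2)) := by
      rw [wp_I hg.lat, h.e1]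
      linear_combination h0
    rcases (wp_eq_iff L n2w nh).1 h1 with h2 | h2
    · exact nh1 h2
    · exact nh2 h2
  have hXa : ℘[L] w - -(1 + s) ≠ 0 := by
    intro h0
    have h1 : ℘[L] w = ℘[L] T := by rw [hx4]; linear_combination h0
    rcases (wp_eq_iff L nw nT).1 h1 with h2 | h2
    · exact nwT h2
    · exact nwT' h2
  have hdup := wp_two L n2w
  have hdup' := wp'_two L n2w
  have hadd := wp_add L n2w nT nwT nwT'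
  have hadd' := wp'_add L n2w nT nwT nwT'
  rw [hg.g2] at hdup hdup' hadd hadd'
  have e4 : (4 : ℂ) / 2 = 2 := by norm_num
  rw [e4] at hdup hdup' hadd hadd'
  rw [hx4, hy4] at hadd hadd'
  have hm : ℘[L] w ^ 2 + 2 * ℘[L] w - 1 ≠ 0 := by
    intro h0
    apply hX1
    have h1 : ℘'[L] w ^ 2 * (℘[L] (2 * w) + 1) = 0 := by
      have h2 : 4 * (℘'[L] w ^ 2 * ℘[L] (2 * w)) = -8 * ℘[L] w * ℘'[L] w ^ 2 + (6 * ℘[L] w ^ 2 - 2) ^ 2 := by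
        rw [hdup]; field_simp; ring
      linear_combination (1 / 4) * h2 + (1 - 2 * ℘[L] w) * hQ + (℘[L] w ^ 2 + 2 * ℘[L] w - 1) * h0
    exact (mul_eq_zero.1 h1).resolve_left (pow_ne_zero 2 hQ0)
  have hss := h.ss
  have a1 := alg1 (c := s * I) (a := -(1 + s)) hQ (by rw [mul_pow, I_sq, hss]; ring)
    (by linear_combination hss) hXa hQ2 hm hadd hadd'
  obtain ⟨-, a2⟩ := alg3 hQ hQ0 hss hm hdup hdup'
  rw [← e2w]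
  refine ⟨hX1, ?_⟩
  rw [← a2]
  have e : GG L Ω z = -2 * (℘[L] w ^ 2 - 2 * ℘[L] w - 1) / ℘'[L] w +
      2 * s * (℘[L] w ^ 2 + 1) / (℘[L] w ^ 2 + 2 * ℘[L] w - 1) := by
    unfold GG AA
    rw [← hw, ← hT, a1]
    linear_combination (-(2 * s * (℘[L] w ^ 2 + 1) / (℘[L] w ^ 2 + 2 * ℘[L] w - 1))) * I_sq
  rw [e]

lemma odd_zero : Odd' L 0 := ⟨1, isCoprime_one_left, by rw [mul_zero]; exact zero_mem _⟩

lemma OT.odd {z : ℂ} (hz : OT L z) : Odd' L z := hz.ex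

/-- the value at zero -/
theorem gg_zero (h : NL L Ω s) : GG L Ω 0 ^ 2 = 16 * s := by
  obtain ⟨h1, h2⟩ := gg_sq h (odd_zero (L := L))
  have e : 2 * (0 : ℂ) + Ω / 4 = Ω / 4 := by ring
  rw [e, h.x4, h.y4] at h2
  rw [e, h.x4] at h1
  apply mul_right_cancel₀ h1
  rw [h2]
  linear_combination (4 * (1 + 2 * (1 + s)) - 16) * h.ss

theorem gid : S_GID := by
  intro L Ω s h
  refine ⟨gg_zero h, fun z hz => ?_⟩
  have hg := h.gl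
  have hzo : Odd' L z := hz.ex
  obtain ⟨h1, h2⟩ := gg_sq h hzo
  rw [gg_zero h]
  apply mul_right_cancel₀ h1
  -- the points
  have n2 : 2 * z ∉ L.lattice := hz.two hg
  have n4 : 2 * (2 * z) ∉ L.lattice := by
    intro h'
    apply (hz.pow hg 4).nm
    have h3 := neg_mem h'
    have e : -(2 * (2 * z)) = (1 + I) ^ 4 * z := by
      linear_combination (-z * (I ^ 2 + 4 * I + 5)) * I_sq
    rwa [e] at h3
  have nT : Ω / 4 ∉ L.lattice := nmem' hg hzo 0 2 0 (Or.inl (by decide)) (by push_cast; ring)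
  have nzT : 2 * z + Ω / 4 ∉ L.lattice := nmem' hg hzo 2 2 0 (Or.inl (by decide)) (by push_cast; ring)
  have nzT' : 2 * z - Ω / 4 ∉ L.lattice := nmem' hg hzo 2 (-2) 0 (Or.inl (by decide)) (by push_cast; ring)
  have hy := hg.eqn n2
  have hadd := wp_add L n4 nT nzT nzT'
  have hadd' := wp'_add L n4 nT nzT nzT'
  rw [hg.g2] at hadd hadd'
  have e4 : (4 : ℂ) / 2 = 2 := by norm_num
  rw [e4, h.x4, h.y4] at hadd hadd'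
  have hd : ℘[L] (2 * z) - (1 + s) ≠ 0 := by
    intro h0
    have h3 : ℘[L] (2 * z) = ℘[L] (Ω / 4) := by rw [h.x4]; linear_combination h0
    rcases (wp_eq_iff L n2 nT).1 h3 with h4 | h4
    · exact nzT h4
    · exact nzT' h4
  have eb : -2 * s * (1 + s) = -2 * ((1 + s) + 1) := by linear_combination (-2) * h.ss
  rw [eb] at hadd hadd'
  have a1 := alg2 (a := 1 + s) hy (by linear_combination h.ss) hd hadd hadd'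
  have es : 1 + s - 1 = s := by ring
  rw [es] at a1
  linear_combination (℘'[L] (2 * z) - 2 * s * ℘[L] (2 * z)) ^ 2 * h2 + 4 * a1

end Pool.Agent.D0H84.Q4
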