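import Pool.Agent.D0H10.Q4.StmC

/-!
Project Q4, module C1: the Gaussian determinant of a rational integer.
-/

set_option autoImplicit false

namespace Pool.Agent.D0H84.Q4

open H385 (ZI RQ im1 nrm)
open Pool.Agent.Y699
open Pool.Agent.W164.RC (Ip_one prime_of_norm)
open Pool.Agent.H304R2.EC.A1 (prim prim_mul prim_one prim_star norm_def' prim_ne_zero)
open Pool.Agent.D0H10.Q4
open scoped Matrix

lemma norm_star' (x : ZI) : (star x).norm = x.norm := by
  rw [norm_def', norm_def', Zsqrtd.re_star, Zsqrtd.im_star, neg_sq]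

lemma exists_pi {p : ℕ} (hp : p.Prime) (h1 : p % 4 = 1) :
    ∃ x : ZI, x ≠ star x ∧ PP x ∧ PP (star x) ∧ x * star x = (p : ZI) ∧ x.norm = p := by
  obtain ⟨x, h2, h3, h4, h5, -⟩ := Ip_one hp h1
  have h6 : x.norm = p := by rw [← nrm_cast, h5]
  have h7 : nrm (star x) = p := by
    have := nrm_cast (star x)
    rw [norm_star', h6] at this
    exact_mod_cast this
  exact ⟨x, h2, ⟨prime_of_norm hp h5, h3⟩, ⟨prime_of_norm hp h7, prim_star h3⟩, h4, h6⟩

section one

variable {x : ZI} {p : ℕ} [Fact p.Prime] (hx : PP x) (hs : PP (star x)) (hn : x.norm = p)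

include hx hs hn

lemma qr_star_star (z : ZI) : qr (star x) (star z) = qr x z := by
  rw [qr_deg1 hx hn, qr_deg1 hs (by rw [norm_star', hn])]
  simp only [Zsqrtd.re_star, Zsqrtd.im_star]
  ring_nf

lemma p_mod4 : p % 4 = 1 := by
  have := hx.norm_mod
  rw [hn] at this
  omega

lemma qr_star_self : qr x (star x) = legendreSym p 2 := by
  have hp : p.Prime := Fact.out
  have h4 := p_mod4 hx hs hn
  rw [qr_deg1 hx hn]
  simp only [Zsqrtd.re_star, Zsqrtd.im_star]
  have e : (x.re * x.re + x.im * -x.im : ℤ) = 2 * x.re ^ 2 - p := by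
    have : (p : ℤ) = x.re ^ 2 + x.im ^ 2 := by rw [← hn, norm_def']
    rw [this]; ring
  have hre : ((x.re : ℤ) : ZMod p) ≠ 0 := by
    intro h0
    rw [ZMod.intCast_zmod_eq_zero_iff_dvd] at h0
    have h6 : (p : ℤ) = x.re ^ 2 + x.im ^ 2 := by rw [← hn, norm_def']
    obtain ⟨c, hc⟩ := h0
    have hp1 : (2 : ℤ) ≤ p := by exact_mod_cast hp.two_le
    have hre : x.re ≠ 0 := by
      have := re_odd hx.prm
      omega
    have hc0 : c ≠ 0 := by
      rintro rfl
      apply hre
      rw [hc, mul_zero]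
    have h7 : (p : ℤ) ^ 2 ≤ x.re ^ 2 := by
      rw [hc, mul_pow]
      have : 1 ≤ c ^ 2 := by
        have := sq_nonneg c
        have h8 : c ^ 2 ≠ 0 := pow_ne_zero 2 hc0
        omega
      nlinarith [sq_nonneg (p : ℤ)]
    nlinarith [sq_nonneg x.im]
  have e2 : legendreSym p (2 * x.re ^ 2 - p) = legendreSym p (2 * x.re ^ 2) := by
    unfold legendreSym
    congr 1
    push_cast
    rw [ZMod.natCast_self, sub_zero]
  rw [e, e2, legendreSym.mul, legendreSym.sq_one' p hre, mul_one]

end one

lemma nsq_leg {p : ℕ} [Fact p.Prime] {a : ℕ} (ha : (a : ZMod p) ≠ 0) :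
    (nsq p a = 0 ∧ legendreSym p a = 1) ∨ (nsq p a = 1 ∧ legendreSym p a = -1) := by
  classical
  have ha' : (((a : ℤ)) : ZMod p) ≠ 0 := by push_cast; exact ha
  unfold nsq
  by_cases h : IsSquare (a : ZMod p)
  · left
    refine ⟨if_pos h, (legendreSym.eq_one_iff p ha').2 (by push_cast; exact h)⟩
  · right
    refine ⟨if_neg h, (legendreSym.eq_neg_one_iff p).2 (by push_cast; exact h)⟩

lemma em_dec {x : ZI} (hx : PP x) {z : ZI} (hz : ¬ x ∣ z) :
    ((if qr x z = -1 then (1 : ZMod 2) else 0) = 0 ∧ qr x z = 1) ∨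
    ((if qr x z = -1 then (1 : ZMod 2) else 0) = 1 ∧ qr x z = -1) := by
  rcases qr_cases hz with h | h <;> rw [h] <;> simp

/-- the two symbols of the primes above `q` -/
lemma em_pair {x y : ZI} {p q : ℕ} [Fact p.Prime] (hx : PP x) (hn : x.norm = p)
    (hy : y * star y = (q : ZI)) (hd1 : ¬ x ∣ y) (hd2 : ¬ x ∣ star y) (hq : (q : ZMod p) ≠ 0) :
    (if qr x y = -1 then (1 : ZMod 2) else 0) + (if qr x (star y) = -1 then 1 else 0) = nsq p q := by
  have h1 : qr x y * qr x (star y) = legendreSym p q := by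
    rw [← qr_mul hx, hy]
    have := qr_int hx hn (q : ℤ)
    push_cast at this
    exact this
  rcases em_dec hx hd1 with ⟨a1, b1⟩ | ⟨a1, b1⟩ <;> rcases em_dec hx hd2 with ⟨a2, b2⟩ | ⟨a2, b2⟩ <;>
    rcases nsq_leg hq with ⟨a3, b3⟩ | ⟨a3, b3⟩ <;> rw [a1, a2, a3] <;> rw [b1, b2, b3] at h1 <;>
    first | decide | (exfalso; norm_num at h1)

/-- transport of the determinant to another index set -/
lemma dD_eq {κ : Type} [Fintype κ] [DecidableEq κ] {D : ZI} {f : κ → ZI} (hf : PF f)
    (hPD : Finset.univ.image f = PD D) :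
    dD D = (Matrix.of fun i j : κ => if i = j then wt f i + ∑ l, em f l i else em f j i).det := by
  classical
  have hmem : ∀ j, f j ∈ PD D := fun j => by
    rw [← hPD]; exact Finset.mem_image_of_mem _ (Finset.mem_univ _)
  let g : κ → {π : ZI // π ∈ PD D} := fun j => ⟨f j, hmem j⟩
  have hg : Function.Bijective g := by
    constructor
    · intro a b h
      exact hf.inj (congrArg Subtype.val h)
    · rintro ⟨π, hπ⟩
      rw [← hPD, Finset.mem_image] at hπ
      obtain ⟨j, -, hj⟩ := hπ
      exact ⟨j, Subtype.ext hj⟩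
  let e1 : κ ≃ {π : ZI // π ∈ PD D} := Equiv.ofBijective g hg
  let e2 : {π : ZI // π ∈ PD D} ≃ ↥(Finset.univ : Finset {π : ZI // π ∈ PD D}) :=
    ⟨fun a => ⟨a, Finset.mem_univ a⟩, fun b => b.1, fun _ => rfl, fun _ => rfl⟩
  unfold dD dq
  rw [← Matrix.det_submatrix_equiv_self (e1.trans e2)]
  congr 1
  ext i j
  have hval : ∀ k : κ, (((e1.trans e2) k : ↥(Finset.univ : Finset {π : ZI // π ∈ PD D})) :
      {π : ZI // π ∈ PD D}) = g k := fun _ => rfl
  simp only [Matrix.submatrix_apply, MQ, Matrix.of_apply]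
  have hij : ((e1.trans e2) i = (e1.trans e2) j) ↔ i = j := (e1.trans e2).injective.eq_iff
  by_cases h : i = j
  · rw [if_pos (hij.2 h), if_pos h]
    rw [hval]
    have h1 : wt (fam D) (g i) = wt f i := rfl
    rw [h1]
    congr 1
    have h2 : em (fam D) (g i) (g i) = 0 := em_self hf i
    have h3 := e1.sum_comp (fun l => em (fam D) l (g i))
    have h4 := Finset.add_sum_erase Finset.univ (fun l => em (fam D) l (g i)) (Finset.mem_univ (g i))
    rw [h2, zero_add] at h4
    rw [h4, ← h3]
    rfl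
  · rw [if_neg (fun h' => h (hij.1 h')), if_neg h]
    rfl

/-- determinant of a block matrix in characteristic two -/
lemma det_blocks {ι : Type} [Fintype ι] [DecidableEq ι] (B C : Matrix ι ι (ZMod 2)) :
    (Matrix.fromBlocks B C C B).det = (B + C).det * (B + C).det := by
  have h2 : ∀ M : Matrix ι ι (ZMod 2), M + M = 0 := fun M => by
    ext i j
    rw [Matrix.add_apply, Matrix.zero_apply]
    exact CharTwo.add_self_eq_zero _
  have e : Matrix.fromBlocks 1 0 1 1 * Matrix.fromBlocks B C C B * Matrix.fromBlocks 1 0 1 1 =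
      Matrix.fromBlocks (B + C) C 0 (B + C) := by
    rw [Matrix.fromBlocks_multiply, Matrix.fromBlocks_multiply]
    simp only [Matrix.one_mul, Matrix.zero_mul, Matrix.mul_one, Matrix.mul_zero, add_zero, zero_add]
    congr 1
    · rw [add_comm C B]
      exact h2 _
    · exact add_comm _ _
  have h1 := congrArg Matrix.det e
  rw [Matrix.det_mul, Matrix.det_mul, Matrix.det_fromBlocks_zero₁₂, Matrix.det_one,
    Matrix.det_fromBlocks_zero₂₁] at h1
  simpa using h1

theorem cri : S_CRI := by
  classical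
  intro m hm
  obtain ⟨hsq, h4⟩ := hm
  have hpr : ∀ p : m.primeFactors, (p : ℕ).Prime := fun p => Nat.prime_of_mem_primeFactors p.2
  choose x hx1 hx2 hx3 hx4 hx5 using fun p : m.primeFactors => exists_pi (hpr p) (h4 p.1 p.2)
  set f : m.primeFactors ⊕ m.primeFactors → ZI := Sum.elim x (fun p => star (x p)) with hf
  have hnf : ∀ p, (star (x p)).norm = (p : ℕ) := fun p => by rw [norm_star', hx5]
  have hne : ∀ p q : m.primeFactors, x p ≠ star (x q) := by
    intro p q h
    have h1 := congrArg Zsqrtd.norm h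
    rw [hx5, hnf] at h1
    have h2 : p = q := Subtype.ext (by exact_mod_cast h1)
    subst h2
    exact hx1 p h
  have hxi : ∀ p q : m.primeFactors, x p = x q → p = q := by
    intro p q h
    have h1 := congrArg Zsqrtd.norm h
    rw [hx5, hx5] at h1
    exact Subtype.ext (by exact_mod_cast h1)
  have hPF : PF f := by
    refine ⟨?_, ?_⟩
    · rintro (p | p)
      · exact hx2 p
      · exact hx3 p
    · rintro (p | p) (q | q) h
      · exact congrArg _ (hxi p q h)
      · exact absurd h (hne p q)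
      · exact absurd h.symm (hne q p)
      · have : x p = x q := by
          have h1 : star (x p) = star (x q) := h
          exact star_injective h1
        exact congrArg _ (hxi p q this)
  have hprod : ∏ π ∈ Finset.univ.image f, π = (m : ZI) := by
    rw [Finset.prod_image (fun a _ b _ h => hPF.inj h), Fintype.prod_sum_type]
    simp only [hf, Sum.elim_inl, Sum.elim_inr]
    rw [← Finset.prod_mul_distrib]
    simp_rw [hx4]
    rw [Finset.prod_coe_sort m.primeFactors (fun p => ((p : ℕ) : ZI))]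
    rw [← Nat.cast_prod, Nat.prod_primeFactors_of_squarefree hsq]
  obtain ⟨hPS, hPD⟩ := PS_prod (S := Finset.univ.image f) (by
    intro π hπ
    rw [Finset.mem_image] at hπ
    obtain ⟨j, -, rfl⟩ := hπ
    exact hPF.pp j)
  rw [hprod] at hPS hPD
  refine ⟨hPS, ?_, ?_⟩
  · rw [hPD, Finset.card_image_of_injective _ hPF.inj, Finset.card_univ, Fintype.card_sum,
      Fintype.card_coe]
    ring
  -- the symbols
  have hF : ∀ p : m.primeFactors, Fact (p : ℕ).Prime := fun p => ⟨hpr p⟩
  have s1 : ∀ p q : m.primeFactors, em f (Sum.inr q) (Sum.inr p) = em f (Sum.inl q) (Sum.inl p) := by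
    intro p q
    have := hF p
    show (if qr (star (x p)) (star (x q)) = -1 then (1 : ZMod 2) else 0) = if qr (x p) (x q) = -1 then 1 else 0
    rw [qr_star_star (hx2 p) (hx3 p) (hx5 p)]
  have s2 : ∀ p q : m.primeFactors, em f (Sum.inl q) (Sum.inr p) = em f (Sum.inr q) (Sum.inl p) := by
    intro p q
    have := hF p
    show (if qr (star (x p)) (x q) = -1 then (1 : ZMod 2) else 0) = if qr (x p) (star (x q)) = -1 then 1 else 0
    rw [← qr_star_star (hx2 p) (hx3 p) (hx5 p) (star (x q)), star_star]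
  have s3 : ∀ p q : m.primeFactors, p ≠ q →
      em f (Sum.inl q) (Sum.inl p) + em f (Sum.inr q) (Sum.inl p) = nsq p q := by
    intro p q hpq
    have := hF p
    refine em_pair (hx2 p) (hx5 p) (hx4 q) ?_ ?_ ?_
    · intro h
      exact hpq (hxi p q ((hx2 p).eq_of_dvd (hx2 q) h))
    · intro h
      exact hne p q ((hx2 p).eq_of_dvd (hx3 q) h)
    · intro h
      rw [ZMod.natCast_eq_zero_iff] at h
      exact hpq (Subtype.ext ((Nat.prime_dvd_prime_iff_eq (hpr p) (hpr q)).1 h))
  have s4 : ∀ p : m.primeFactors, em f (Sum.inr p) (Sum.inl p) = nsq p 2 := by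
    intro p
    have := hF p
    show (if qr (x p) (star (x p)) = -1 then (1 : ZMod 2) else 0) = _
    rw [qr_star_self (hx2 p) (hx3 p) (hx5 p)]
    have h2 : ((2 : ℕ) : ZMod p) ≠ 0 := by
      intro h
      rw [ZMod.natCast_eq_zero_iff] at h
      have h5 := h4 p.1 p.2
      have h6 := (Nat.prime_dvd_prime_iff_eq (hpr p) Nat.prime_two).1 h
      omega
    rcases nsq_leg h2 with ⟨a, b⟩ | ⟨a, b⟩
    · push_cast at b
      rw [a, b]; simp
    · push_cast at b
      rw [a, b]; simp
  have s5 : ∀ p : m.primeFactors, wt f (Sum.inl p) = nsq p 2 := by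
    intro p
    have := hF p
    have e0 : wt f (Sum.inl p) = if (x p).norm % 8 = 5 then (1 : ZMod 2) else 0 := rfl
    rw [e0, nsq, hx5]
    have h5 := h4 p.1 p.2
    have h6 : (p : ℕ) ≠ 2 := by omega
    have h7 : IsSquare ((2 : ℕ) : ZMod p) ↔ (p : ℕ) % 8 = 1 ∨ (p : ℕ) % 8 = 7 := by
      push_cast
      exact ZMod.exists_sq_eq_two_iff h6
    by_cases h8 : (p : ℕ) % 8 = 1
    · rw [if_neg (by omega), if_pos (h7.2 (Or.inl h8))]
    · rw [if_pos (by omega), if_neg (by rw [h7]; omega)]
  have s6 : ∀ p : m.primeFactors, wt f (Sum.inr p) = nsq p 2 := by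
    intro p
    rw [← s5 p]
    show (if (star (x p)).norm % 8 = 5 then (1 : ZMod 2) else 0) = if (x p).norm % 8 = 5 then 1 else 0
    rw [norm_star']
  have s7 : ∀ p : m.primeFactors, em f (Sum.inl p) (Sum.inl p) = 0 := fun p => em_self hPF _
  -- the sums
  have t1 : ∀ p : m.primeFactors, ∑ l, em f l (Sum.inl p) =
      nsq p 2 + ∑ q ∈ m.primeFactors.erase p, nsq p q := by
    intro p
    rw [Fintype.sum_sum_type, ← Finset.sum_add_distrib,
      ← Finset.add_sum_erase Finset.univ _ (Finset.mem_univ p), s7, s4, zero_add]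
    congr 1
    have e1 : ∑ q ∈ Finset.univ.erase p, (em f (Sum.inl q) (Sum.inl p) + em f (Sum.inr q) (Sum.inl p)) =
        ∑ q ∈ Finset.univ.erase p, nsq p q :=
      Finset.sum_congr rfl fun q hq => s3 p q (fun h => (Finset.mem_erase.1 hq).1 h.symm)
    rw [e1]
    have e2 : (m.primeFactors.erase (p : ℕ)) = (Finset.univ.erase p).map (Function.Embedding.subtype _) := by
      ext q
      simp only [Finset.mem_erase, Finset.mem_map, Finset.mem_univ, Function.Embedding.subtype_apply, and_true]
      constructor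
      · rintro ⟨h1, h2⟩
        exact ⟨⟨q, h2⟩, fun h => h1 (congrArg Subtype.val h), rfl⟩
      · rintro ⟨a, h1, rfl⟩
        exact ⟨fun h => h1 (Subtype.ext h), a.2⟩
    rw [e2, Finset.sum_map]
    rfl
  have t2 : ∀ p : m.primeFactors, ∑ l, em f l (Sum.inr p) = ∑ l, em f l (Sum.inl p) := by
    intro p
    rw [Fintype.sum_sum_type, Fintype.sum_sum_type, add_comm]
    congr 1
    · exact Finset.sum_congr rfl fun q _ => s1 p q
    · exact Finset.sum_congr rfl fun q _ => s2 p q
  set B : Matrix m.primeFactors m.primeFactors (ZMod 2) := Matrix.of fun p q =>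
    if p = q then ∑ q ∈ m.primeFactors.erase p, nsq p q else em f (Sum.inl q) (Sum.inl p) with hB
  set C : Matrix m.primeFactors m.primeFactors (ZMod 2) := Matrix.of fun p q =>
    em f (Sum.inr q) (Sum.inl p) with hC
  have hd : dD (m : ZI) = (Matrix.fromBlocks B C C B).det := by
    rw [dD_eq hPF hPD.symm]
    congr 1
    ext i j
    rcases i with p | p <;> rcases j with q | q
    · simp only [Matrix.of_apply, Matrix.fromBlocks_apply₁₁, hB]
      by_cases h : p = q
      · rw [if_pos (congrArg _ h), if_pos h, s5, t1, ← add_assoc, CharTwo.add_self_eq_zero, zero_add]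
      · rw [if_neg (fun h' => h (Sum.inl_injective h')), if_neg h]
    · simp only [Matrix.of_apply, Matrix.fromBlocks_apply₁₂, hC]
      rw [if_neg (by simp)]
    · simp only [Matrix.of_apply, Matrix.fromBlocks_apply₂₁, hC]
      rw [if_neg (by simp), s2]
    · simp only [Matrix.of_apply, Matrix.fromBlocks_apply₂₂, hB]
      by_cases h : p = q
      · rw [if_pos (congrArg _ h), if_pos h, s6, t2, t1, ← add_assoc, CharTwo.add_self_eq_zero, zero_add]
      · rw [if_neg (fun h' => h (Sum.inr_injective h')), if_neg h, s1]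
  have hBC : B + C = matQ m := by
    ext p q
    rw [Matrix.add_apply]
    simp only [hB, hC, matQ, Matrix.of_apply]
    by_cases h : p = q
    · subst h
      rw [if_pos rfl, if_pos rfl, s4, add_comm]
    · rw [if_neg h, if_neg h, s3 p q h]
  rw [hd, det_blocks, hBC]
  generalize (matQ m).det = d
  revert d
  decide

end Pool.Agent.D0H84.Q4
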