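import Pool.Agent.D0H84.Q4.Kalg
import Pool.Agent.D0H43.Q4.Stm4

/-!
Project Q4, class `b = 1`: the algebraic identities for `G`.
-/

set_option autoImplicit false

open Filter Complex
open scoped Topology PeriodPair
open H667R3 hiding sq
open Pool.Agent.TH936.CM Pool.Agent.W192.HK

namespace Pool.Agent.D0H84.Q4

open H385 (ZI RQ im1 nrm)
open Pool.Agent.H304R3.HK (tc HC LH)
open Pool.Agent.Y699
open Pool.Agent.W164.RC (tc_mul)
open Pool.Agent.D0H10.Q4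

variable {L : PeriodPair} {Ω s : ℂ}

lemma tc16 : tc (16 : ZI) = 16 := by
  have := tc_int 16
  push_cast at this
  exact this

/-- membership, sixteenths of the period -/
lemma nmem16 (h : GLat L Ω) {z : ℂ} (hz : Odd' L z) (c a b : ℤ) (hr : a % 16 ≠ 0) {w : ℂ}
    (hw : w = c * z + Ω * (a + b * I) / 16) : w ∉ L.lattice := by
  obtain ⟨D, hD, hz⟩ := hz
  intro h'
  rw [hw] at h'
  have h1 := lat_mul h.lat D h'
  have h2 := lat_mul h.lat (c : ZI) hz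
  have h3 := sub_mem h1 h2
  have et : tc (⟨a, b⟩ : ZI) = a + b * I := by unfold tc; simp
  have e : tc D * (c * z + Ω * (a + b * I) / 16) - tc (c : ZI) * (tc D * z) =
      Ω * tc (D * ⟨a, b⟩) / tc 16 := by
    rw [tc_mul, tc16, et, tc_int]; ring
  rw [e] at h3
  refine div_notMem h.lat (by decide : (16 : ZI) ≠ 0) ?_ h3
  intro h4
  have h5 : IsCoprime D (16 : ZI) := by
    have h6 : IsCoprime D (pi1 ^ 8) := hD.pow_right
    exact h6.of_isCoprime_of_dvd_right ⟨⟨1, 0⟩, by decide⟩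
  have h7 : (16 : ZI) ∣ ⟨a, b⟩ := h5.symm.dvd_of_dvd_mul_left h4
  obtain ⟨c', hc⟩ := h7
  have r1 := congrArg Zsqrtd.re hc
  simp only [Zsqrtd.re_mul] at r1
  have e1 : (16 : ZI).re = 16 := rfl
  have e2 : (16 : ZI).im = 0 := rfl
  rw [e1, e2] at r1
  omega

/-- `e = ± i` -/
structure Ue (e : ℂ) (ε : ℤ) : Prop where
  eq : e = ε * I
  pm : ε = 1 ∨ ε = -1

lemma Ue.sq {e : ℂ} {ε : ℤ} (h : Ue e ε) : e ^ 2 = -1 := by
  rw [h.eq, mul_pow, I_sq]
  rcases h.pm with h1 | h1 <;> rw [h1] <;> norm_num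

lemma Ue.neg {e : ℂ} {ε : ℤ} (h : Ue e ε) : Ue (-e) (-ε) := by
  refine ⟨by rw [h.eq]; push_cast; ring, ?_⟩
  rcases h.pm with h1 | h1 <;> rw [h1] <;> decide

lemma Ue.wp {e : ℂ} {ε : ℤ} (h : Ue e ε) (hg : GLat L Ω) (z : ℂ) : ℘[L] (e * z) = -℘[L] z := by
  rw [h.eq]
  rcases h.pm with h1 | h1 <;> rw [h1]
  · rw [Int.cast_one, one_mul, wp_I hg.lat]
  · have : ((-1 : ℤ) : ℂ) * I * z = -(I * z) := by push_cast; ring
    rw [this, L.weierstrassP_neg, wp_I hg.lat]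

lemma Ue.wp' {e : ℂ} {ε : ℤ} (h : Ue e ε) (hg : GLat L Ω) (z : ℂ) : ℘'[L] (e * z) = e * ℘'[L] z := by
  rw [h.eq]
  rcases h.pm with h1 | h1 <;> rw [h1]
  · rw [Int.cast_one, one_mul, wp'_I hg.lat]
  · have : ((-1 : ℤ) : ℂ) * I * z = -(I * z) := by push_cast; ring
    rw [this, L.derivWeierstrassP_neg, wp'_I hg.lat]
    push_cast; ring

lemma s_ne0 (hs : s ^ 2 = 2) : s ≠ 0 := by
  rintro rfl
  norm_num at hs

lemma a_ne0 (hs : s ^ 2 = 2) : 1 + s ≠ 0 := by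
  intro h0
  have h1 : s = -1 := by linear_combination h0
  rw [h1] at hs
  norm_num at hs

/-- the coordinates of `(1 - e) Ω / 4` -/
lemma val_T1 (h : NL L Ω s) {e : ℂ} {ε : ℤ} (he : Ue e ε) :
    ℘[L] ((1 - e) * (Ω / 4)) = e ∧ ℘'[L] ((1 - e) * (Ω / 4)) = 2 * (1 - e) := by
  have hg := h.gl
  have hz := odd_zero (L := L)
  have n1 : 2 * (Ω / 4) ∉ L.lattice := nmem16 hg hz 0 8 0 (by decide) (by push_cast; ring)
  have n2 : -e * (Ω / 4) ∉ L.lattice := by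
    intro h'
    apply nmem16 hg hz 0 4 0 (by decide) (by push_cast; ring : Ω / 4 = (0 : ℤ) * 0 + Ω * ((4 : ℤ) + (0 : ℤ) * I) / 16)
    have h3 := lat_I hg.lat h'
    rcases he.pm with h1 | h1
    · have e1 : Ω / 4 = I * (-e * (Ω / 4)) := by
        rw [he.eq, h1]; push_cast; linear_combination (Ω / 4) * I_sq
      rw [e1]; exact h3
    · have e1 : Ω / 4 = -(I * (-e * (Ω / 4))) := by
        rw [he.eq, h1]; push_cast; linear_combination (Ω / 4) * I_sq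
      rw [e1]; exact neg_mem h3
  have n3 : Ω / 4 + -e * (Ω / 4) ∉ L.lattice :=
    nmem16 hg hz 0 4 (-4 * ε) (by decide) (by rw [he.eq]; push_cast; ring)
  have n4 : Ω / 4 - -e * (Ω / 4) ∉ L.lattice :=
    nmem16 hg hz 0 4 (4 * ε) (by decide) (by rw [he.eq]; push_cast; ring)
  obtain ⟨a1, a2⟩ := add_xy hg n1 n2 n3 n4
  have e1 : Ω / 4 + -e * (Ω / 4) = (1 - e) * (Ω / 4) := by ring
  rw [e1, he.neg.wp hg, he.neg.wp' hg, h.x4, h.y4] at a1 a2
  have ha := a_ne0 h.ss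
  have he2 := he.sq
  have hs := h.ss
  constructor
  · apply mul_right_cancel₀ (pow_ne_zero 2 ha)
    linear_combination (1 / 4) * a1 + e * (1 + s) ^ 2 / 2 * hs
  · apply mul_right_cancel₀ (pow_ne_zero 3 ha)
    linear_combination (1 / 8) * a2 + ((1 - e) * (1 + s) ^ 2 * (s / 2 + 1)) * hs

/-- the data of a point `t`: `AA t = φ A`, `DA t = φ B`, `℘ (2 t) = x`, `℘' (2 t) = y` -/
structure Pt (L : PeriodPair) (t φ A B x y : ℂ) : Prop where
  aa : AA L t = φ * A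
  da : DA L t = φ * B
  xx : ℘[L] (2 * t) = x
  yy : ℘'[L] (2 * t) = y

/-- shift by `Ω / 4` -/
lemma Pt.shift (h : NL L Ω s) {t φ A B x y A' B' x' y' : ℂ} (hp : Pt L t φ A B x y)
    (hφ : φ ≠ 0) (hA : φ ^ 2 * (A * A') = -4 * s) (hB : φ ^ 2 * (A' * B') = 4 * y')
    (hx : x' * (x - 1) ^ 2 = (x + 1) * (x - 1)) (hx1 : x - 1 ≠ 0)
    (hy : y' * (x - 1) ^ 3 = -y * (2 * x - 2))
    (n4 : 2 * (2 * t) ∉ L.lattice) (n1 : 2 * (t + Ω / 4) ∉ L.lattice) (n2 : t - Ω / 4 ∉ L.lattice)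
    (n5 : 2 * t + Ω / 2 ∉ L.lattice) (n6 : 2 * t - Ω / 2 ∉ L.lattice) :
    Pt L (t + Ω / 4) φ A' B' x' y' := by
  have hg := h.gl
  have hz := odd_zero (L := L)
  have n3 := GLat.two_notMem n4
  have m1 : 2 * (Ω / 4) ∉ L.lattice := nmem16 hg hz 0 8 0 (by decide) (by push_cast; ring)
  have m2 : Ω / 2 ∉ L.lattice := nmem16 hg hz 0 8 0 (by decide) (by push_cast; ring)
  have hs0 := s_ne0 h.ss
  have hss := h.ss
  have ha0 := a_ne0 h.ss
  have hA0 : A ≠ 0 := by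
    rintro rfl
    rw [zero_mul, mul_zero] at hA
    exact mul_ne_zero (by norm_num) hs0 hA.symm
  have hA0' : A' ≠ 0 := by
    rintro rfl
    rw [mul_zero, mul_zero] at hA
    exact mul_ne_zero (by norm_num) hs0 hA.symm
  have f0 : AA L (Ω / 4) = 0 := by
    unfold AA
    rw [h.x4]
    have : (1 + s) ^ 2 - 2 * (1 + s) - 1 = 0 := by linear_combination hss
    rw [this, mul_zero, zero_div]
  have d0 : DA L (Ω / 4) = -4 * s := by
    unfold DA
    rw [h.x4, h.y4, div_eq_iff (pow_ne_zero 2 (mul_ne_zero (mul_ne_zero (by norm_num) hs0) ha0))]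
    linear_combination (16 * s ^ 3 + 28 * s ^ 2 + 24 * s + 8) * hss
  have e2 := hg.eqn m2
  rw [h.e1] at e2
  have d2 : ℘'[L] (Ω / 2) = 0 := by
    apply pow_eq_zero_iff two_ne_zero |>.1
    rw [e2]; ring
  have r1 := aa_add hg n3 m1 n1 n2
  rw [f0, d0, hp.aa] at r1
  have q1 : AA L (t + Ω / 4) = φ * A' := by
    apply mul_right_cancel₀ (pow_ne_zero 2 (mul_ne_zero hφ hA0))
    linear_combination (-1) * r1 - φ * A * hA
  have r3 := aa_sq hg n1
  have r4 := aa_da hg n1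
  have et : 2 * (t + Ω / 4) = 2 * t + Ω / 2 := by ring
  obtain ⟨s1, s2⟩ := add_xy hg n4 m2 n5 n6
  rw [h.e1, d2, hp.xx, hp.yy] at s1 s2
  have qx : ℘[L] (2 * (t + Ω / 4)) = x' := by
    rw [et]
    apply mul_right_cancel₀ (pow_ne_zero 2 hx1)
    linear_combination s1 - hx
  have qy : ℘'[L] (2 * (t + Ω / 4)) = y' := by
    rw [et]
    apply mul_right_cancel₀ (pow_ne_zero 3 hx1)
    linear_combination s2 - hy
  refine ⟨q1, ?_, qx, qy⟩
  rw [q1, qy] at r4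
  apply mul_left_cancel₀ (mul_ne_zero hφ hA0')
  linear_combination r4 - hB

/-- the four points -/
theorem exists_pts (h : NL L Ω s) {e : ℂ} {ε : ℤ} (he : Ue e ε) : ∃ r φ : ℂ, r ^ 2 = 2 * (1 + s) ∧
    φ ^ 2 = 4 * (X0 e s r - 1) ∧
    Pt L ((1 - e) * (Ω / 16)) φ (A0 e s r) (B0 e s r) (X0 e s r) (Y0 e s r) ∧
    Pt L ((1 - e) * (Ω / 16) + (1 - e) * (Ω / 4)) φ (A1 e s r) (B1 e s r) (X1 e s r) (Y1 e s r) ∧
    Pt L ((1 - e) * (Ω / 16) + Ω / 4) φ (A2 e s r) (B2 e s r) (X2 e s r) (Y2 e s r) ∧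
    Pt L ((1 - e) * (Ω / 16) + (1 - e) * (Ω / 4) + Ω / 4) φ (A3 e s r) (B3 e s r) (X3 e s r)
      (Y3 e s r) := by
  have hg := h.gl
  have hz := odd_zero (L := L)
  have he2 := he.sq
  have hss := h.ss
  have hs0 := s_ne0 hss
  have ha0 := a_ne0 hss
  -- the point `u = 2 t₀`
  obtain ⟨u, hu⟩ : ∃ u, u = (1 - e) * (Ω / 8) := ⟨_, rfl⟩
  have n1 : 2 * u ∉ L.lattice := nmem16 hg hz 0 4 (-4 * ε) (by decide) (by rw [hu, he.eq]; push_cast; ring)
  have n2 : e * u ∉ L.lattice := by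
    intro h'
    have h3 := lat_I hg.lat h'
    apply GLat.two_notMem n1
    rcases he.pm with h1 | h1
    · have e1 : u = -(I * (e * u)) := by
        rw [he.eq, h1]; push_cast; linear_combination (u) * I_sq
      rw [e1]; exact neg_mem h3
    · have e1 : u = I * (e * u) := by
        rw [he.eq, h1]; push_cast; linear_combination (u) * I_sq
      rw [e1]; exact h3
  have e1 : u + e * u = Ω / 4 := by
    rw [hu]; linear_combination (-(Ω / 8)) * he2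
  have e2 : u - e * u = -e * (Ω / 4) := by
    rw [hu]; linear_combination (Ω / 8) * he2
  have n3 : u + e * u ∉ L.lattice := by
    rw [e1]; exact nmem16 hg hz 0 4 0 (by decide) (by push_cast; ring)
  have n4 : u - e * u ∉ L.lattice := by
    rw [e2]
    intro h'
    apply nmem16 hg hz 0 4 0 (by decide) (by push_cast; ring : Ω / 4 = (0 : ℤ) * 0 + Ω * ((4 : ℤ) + (0 : ℤ) * I) / 16)
    have h3 := lat_I hg.lat h'
    rcases he.pm with h1 | h1
    · have e1 : Ω / 4 = I * (-e * (Ω / 4)) := by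
        rw [he.eq, h1]; push_cast; linear_combination (Ω / 4) * I_sq
      rw [e1]; exact h3
    · have e1 : Ω / 4 = -(I * (-e * (Ω / 4))) := by
        rw [he.eq, h1]; push_cast; linear_combination (Ω / 4) * I_sq
      rw [e1]; exact neg_mem h3
  have nu := GLat.two_notMem n1
  have hne := wp_sub_ne L nu n2 n3 n4
  obtain ⟨a1, a2⟩ := add_xy hg n1 n2 n3 n4
  have hQ := hg.eqn nu
  rw [e1, he.wp hg, he.wp' hg, h.x4] at a1
  rw [e1, he.wp hg, he.wp' hg, h.y4] at a2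
  rw [he.wp hg] at hne
  obtain ⟨x, hx⟩ : ∃ x, x = ℘[L] u := ⟨_, rfl⟩
  obtain ⟨y, hy⟩ : ∃ y, y = ℘'[L] u := ⟨_, rfl⟩
  rw [← hx] at hne a1 a2 hQ
  rw [← hy] at a1 a2 hQ
  have hx0 : x ≠ 0 := by
    rintro rfl
    apply hne; ring
  have b1 : x ^ 2 - 1 = 2 * e * x * (1 + s) := by
    apply mul_left_cancel₀ (mul_ne_zero two_ne_zero hx0)
    linear_combination (-e) * a1 + (y ^ 2 / 2) * he2 + (-1 / 2) * hQ
  have b2 : (1 + e) * y * (x ^ 2 + 1) = 8 * s * (1 + s) * x ^ 2 := by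
    apply mul_left_cancel₀ (mul_ne_zero two_ne_zero hx0)
    linear_combination a2
  obtain ⟨r, hr⟩ : ∃ r, r = -e * x - (1 + s) := ⟨_, rfl⟩
  have hr2 : r ^ 2 = 2 * (1 + s) := by
    rw [hr]
    linear_combination (-1) * b1 + hss + x ^ 2 * he2
  have hxr : x = e * (1 + s + r) := by
    rw [hr]; linear_combination x * he2
  have hr0 : r ≠ 0 := by
    rintro rfl
    rw [zero_pow two_ne_zero] at hr2
    exact mul_ne_zero two_ne_zero ha0 hr2.symm
  have hxX : x = X0 e s r := by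
    rw [hxr]; unfold X0; ring
  have hyY : y = Y0 e s r := by
    have c1 : x ^ 2 + 1 = 2 * e * r * x := by
      rw [hxr]
      linear_combination (1 + 2 * s + s ^ 2 - r ^ 2) * he2 + (-1) * hss + hr2
    rw [c1] at b2
    have c2 : (1 + e) * y * (e * r) = 4 * s * (1 + s) * x := by
      apply mul_left_cancel₀ (mul_ne_zero two_ne_zero hx0)
      linear_combination b2
    have c3 : 2 * y * (e * r) = 4 * (1 - e) * s * (1 + s) * x := by
      linear_combination (1 - e) * c2 + y * e * r * he2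
    have c4 : y * e = (1 - e) * s * r * x := by
      apply mul_left_cancel₀ (mul_ne_zero two_ne_zero hr0)
      linear_combination c3 - 2 * (1 - e) * s * x * hr2
    have c5 : y = -e * ((1 - e) * s * r * x) := by
      rw [← c4]; linear_combination y * he2
    rw [c5, hxr]
    unfold Y0
    linear_combination (e * s ^ 2 * r + e * s * r + e * s * r ^ 2 - s * r * (1 + s + r)) * he2 + (-e * r + r - 2 * e + 2) * hss + (-s * e + s) * hr2
  -- the point `t₀`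
  have m0 : 2 * ((1 - e) * (Ω / 16)) ∉ L.lattice := by
    have : 2 * ((1 - e) * (Ω / 16)) = u := by rw [hu]; ring
    rw [this]; exact nu
  have eu : 2 * ((1 - e) * (Ω / 16)) = u := by rw [hu]; ring
  have f1 := aa_sq hg m0
  have f2 := aa_da hg m0
  rw [eu, ← hx, hxX] at f1
  rw [eu, ← hy, hyY] at f2
  obtain ⟨φ, hφ⟩ : ∃ φ, φ = AA L ((1 - e) * (Ω / 16)) := ⟨_, rfl⟩
  rw [← hφ] at f1 f2
  have hφ0 : φ ≠ 0 := by
    intro h0
    rw [h0, zero_pow two_ne_zero] at f1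
    exact mul_ne_zero (by norm_num) (kn0 he2 hss hr2) f1.symm
  have A0e : A0 e s r = 1 := by unfold A0; ring
  have p0 : Pt L ((1 - e) * (Ω / 16)) φ (A0 e s r) (B0 e s r) (X0 e s r) (Y0 e s r) := by
    refine ⟨by rw [A0e, mul_one, hφ], ?_, by rw [eu, ← hx, hxX], by rw [eu, ← hy, hyY]⟩
    apply mul_left_cancel₀ hφ0
    have k := kab0 he2 hss hr2
    rw [← f1, A0e] at k
    linear_combination f2 - k
  -- the point `t₁`
  obtain ⟨v1, v2⟩ := val_T1 h he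
  have k1 : ((1 - e) * (Ω / 16)) = (0 : ℤ) * 0 + Ω * ((1 : ℤ) + ((-ε : ℤ) : ℂ) * I) / 16 := by
    rw [he.eq]; push_cast; ring
  have m1 : 2 * ((1 - e) * (Ω / 4)) ∉ L.lattice :=
    nmem16 hg hz 0 8 (-8 * ε) (by decide) (by rw [he.eq]; push_cast; ring)
  have m2 : 2 * ((1 - e) * (Ω / 16) + (1 - e) * (Ω / 4)) ∉ L.lattice :=
    nmem16 hg hz 0 10 (-10 * ε) (by decide) (by rw [he.eq]; push_cast; ring)
  have m3 : (1 - e) * (Ω / 16) - (1 - e) * (Ω / 4) ∉ L.lattice :=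
    nmem16 hg hz 0 (-3) (3 * ε) (by decide) (by rw [he.eq]; push_cast; ring)
  have w1 : AA L ((1 - e) * (Ω / 4)) = 2 * e := by
    unfold AA
    rw [v1, v2, div_eq_iff (by rw [← v2]; exact wp'_ne_zero L m1)]
    linear_combination 2 * he2
  have w2 : DA L ((1 - e) * (Ω / 4)) = 0 := by
    unfold DA
    have : e ^ 2 + 1 = 0 := by linear_combination he2
    rw [v1, this, mul_zero, zero_mul, zero_div]
  obtain ⟨d1, d2⟩ := dup_xy hg m1
  have hv : ℘'[L] ((1 - e) * (Ω / 4)) ≠ 0 := wp'_ne_zero L m1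
  have he0 : e ^ 2 + 1 = 0 := by linear_combination he2
  rw [v1, he0, zero_pow two_ne_zero] at d1
  rw [v1, he0, mul_zero, zero_mul, zero_mul] at d2
  have g1 := (mul_eq_zero.1 d1).resolve_left (pow_ne_zero 2 hv)
  have g2 := (mul_eq_zero.1 d2).resolve_left (pow_ne_zero 3 hv)
  have p1 : Pt L ((1 - e) * (Ω / 16) + (1 - e) * (Ω / 4)) φ (A1 e s r) (B1 e s r) (X1 e s r)
      (Y1 e s r) := by
    have r1 := aa_add hg m0 m1 m2 m3
    rw [w1, w2, p0.aa, p0.da, A0e] at r1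
    have hX0 := kn00 he2 hss hr2
    have q1 : AA L ((1 - e) * (Ω / 16) + (1 - e) * (Ω / 4)) = φ * A1 e s r := by
      have k := k1a he2 hss hr2
      have hne : (-4 - 4 * (X0 e s r - 1)) ≠ 0 := by
        have : (-4 - 4 * (X0 e s r - 1)) = -4 * X0 e s r := by ring
        rw [this]
        exact mul_ne_zero (by norm_num) hX0
      apply mul_right_cancel₀ hne
      have e4 : (2 * e) ^ 2 = -4 := by linear_combination 4 * he2
      rw [mul_one, e4, f1] at r1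
      linear_combination r1 - φ * k
    have r3 := aa_sq hg m2
    have r4 := aa_da hg m2
    have et : 2 * ((1 - e) * (Ω / 16) + (1 - e) * (Ω / 4)) = u + 2 * ((1 - e) * (Ω / 4)) := by
      rw [hu]; ring
    have m5 : u + 2 * ((1 - e) * (Ω / 4)) ∉ L.lattice :=
      nmem16 hg hz 0 10 (-10 * ε) (by decide) (by rw [hu, he.eq]; push_cast; ring)
    have m6 : u - 2 * ((1 - e) * (Ω / 4)) ∉ L.lattice :=
      nmem16 hg hz 0 (-6) (6 * ε) (by decide) (by rw [hu, he.eq]; push_cast; ring)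
    obtain ⟨s1, s2⟩ := add_xy hg n1 m1 m5 m6
    rw [g1, g2, ← hx, ← hy, hxX, hyY] at s1 s2
    have qx : ℘[L] (2 * ((1 - e) * (Ω / 16) + (1 - e) * (Ω / 4))) = X1 e s r := by
      rw [et]
      apply mul_right_cancel₀ (pow_ne_zero 2 hX0)
      have k := kx01 he2 hss hr2
      linear_combination s1 - k
    have qy : ℘'[L] (2 * ((1 - e) * (Ω / 16) + (1 - e) * (Ω / 4))) = Y1 e s r := by
      rw [et]
      apply mul_right_cancel₀ (pow_ne_zero 3 hX0)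
      have k := ky01 he2 hss hr2
      linear_combination s2 - k
    refine ⟨q1, ?_, qx, qy⟩
    rw [q1, qy] at r4
    have hA1 : A1 e s r ≠ 0 := by
      intro h0
      have k := k13 he2 hss hr2
      rw [h0, zero_mul, mul_zero] at k
      exact mul_ne_zero (by norm_num) hs0 k.symm
    apply mul_left_cancel₀ (mul_ne_zero hφ0 hA1)
    have k := kab1 he2 hss hr2
    rw [← f1] at k
    linear_combination r4 - k
  have p2 := p0.shift h hφ0 (A' := A2 e s r) (B' := B2 e s r) (x' := X2 e s r) (y' := Y2 e s r)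
    (by rw [f1]; exact k02 he2 hss hr2) (by rw [f1]; exact kab2 he2 hss hr2) (kx02 he2 hss hr2)
    (kn0 he2 hss hr2) (ky02 he2 hss hr2)
    (nmem16 hg hz 0 4 (-4 * ε) (by decide) (by rw [he.eq]; push_cast; ring))
    (nmem16 hg hz 0 10 (-2 * ε) (by decide) (by rw [he.eq]; push_cast; ring))
    (nmem16 hg hz 0 (-3) (-ε) (by decide) (by rw [he.eq]; push_cast; ring))
    (nmem16 hg hz 0 10 (-2 * ε) (by decide) (by rw [he.eq]; push_cast; ring))
    (nmem16 hg hz 0 (-6) (-2 * ε) (by decide) (by rw [he.eq]; push_cast; ring))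
  have p3 := p1.shift h hφ0 (A' := A3 e s r) (B' := B3 e s r) (x' := X3 e s r) (y' := Y3 e s r)
    (by rw [f1]; exact k13 he2 hss hr2) (by rw [f1]; exact kab3 he2 hss hr2) (kx13 he2 hss hr2)
    (kn1 he2 hss hr2) (ky13 he2 hss hr2)
    (nmem16 hg hz 0 20 (-20 * ε) (by decide) (by rw [he.eq]; push_cast; ring))
    (nmem16 hg hz 0 18 (-10 * ε) (by decide) (by rw [he.eq]; push_cast; ring))
    (nmem16 hg hz 0 1 (-5 * ε) (by decide) (by rw [he.eq]; push_cast; ring))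
    (nmem16 hg hz 0 18 (-10 * ε) (by decide) (by rw [he.eq]; push_cast; ring))
    (nmem16 hg hz 0 2 (-10 * ε) (by decide) (by rw [he.eq]; push_cast; ring))
  exact ⟨r, φ, hr2, f1, p0, p1, p2, p3⟩

/-- the sum and the difference of the values at `z + t` and `-z + t` -/
lemma Pt.pair (hg : GLat L Ω) {t φ A B x y : ℂ} (hp : Pt L t φ A B x y) {z : ℂ}
    (hz : 2 * z ∉ L.lattice) (ht : 2 * t ∉ L.lattice)
    (h1 : 2 * (z + t) ∉ L.lattice) (h2 : z - t ∉ L.lattice)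
    (h3 : 2 * (-z + t) ∉ L.lattice) (h4 : -z - t ∉ L.lattice) :
    (AA L (z + t) + AA L (-z + t)) * (x - ℘[L] (2 * z)) * 2 = φ * A * DA L z ∧
    (AA L (z + t) - AA L (-z + t)) * (x - ℘[L] (2 * z)) * 2 = -(AA L z * (φ * B)) := by
  have hz' : 2 * -z ∉ L.lattice := by
    intro h'
    apply hz
    have := neg_mem h'
    have e : -(2 * -z) = 2 * z := by ring
    rwa [e] at this
  have r1 := aa_add hg hz ht h1 h2
  have r2 := aa_add hg hz' ht h3 h4
  have s1 := aa_sq hg hz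
  have s2 := aa_sq hg ht
  rw [aa_neg, da_neg, neg_sq] at r2
  rw [hp.xx] at s2
  rw [s1, s2, hp.aa, hp.da] at r1 r2
  constructor
  · linear_combination (1 / 2) * r1 + (1 / 2) * r2
  · linear_combination (1 / 2) * r1 - (1 / 2) * r2

/-- the function `G` with parameters -/
noncomputable def Ge (L : PeriodPair) (Ω e h z : ℂ) : ℂ :=
  AA L (z + (1 - e) * (Ω / 16)) +
    e * AA L (z + (1 - e) * (Ω / 16) + (1 - e) * (Ω / 4)) +
    h * (AA L (z + (1 - e) * (Ω / 16) + Ω / 4) +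
      e * AA L (z + (1 - e) * (Ω / 16) + Ω / 4 + (1 - e) * (Ω / 4)))

lemma Ge_eq (L : PeriodPair) (Ω e h z : ℂ) : Ge L Ω e h z =
    AA L (z + ((1 - e) * (Ω / 16))) + e * AA L (z + ((1 - e) * (Ω / 16) + (1 - e) * (Ω / 4))) +
    h * (AA L (z + ((1 - e) * (Ω / 16) + Ω / 4)) +
      e * AA L (z + ((1 - e) * (Ω / 16) + (1 - e) * (Ω / 4) + Ω / 4))) := by
  unfold Ge
  have e1 : z + (1 - e) * (Ω / 16) + (1 - e) * (Ω / 4) = z + ((1 - e) * (Ω / 16) + (1 - e) * (Ω / 4)) := by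
    ring
  have e2 : z + (1 - e) * (Ω / 16) + Ω / 4 = z + ((1 - e) * (Ω / 16) + Ω / 4) := by ring
  have e3 : z + (1 - e) * (Ω / 16) + Ω / 4 + (1 - e) * (Ω / 4) =
      z + ((1 - e) * (Ω / 16) + (1 - e) * (Ω / 4) + Ω / 4) := by ring
  rw [e3, e1, e2]

lemma comb_alg {a0 a1 a2 a3 D0 D1 D2 D3 e h k A B C D : ℂ} (h0 : a0 * D0 * 2 = k * A)
    (h1 : a1 * D1 * 2 = k * B) (h2 : a2 * D2 * 2 = k * C) (h3 : a3 * D3 * 2 = k * D) :
    2 * (a0 + e * a1 + h * (a2 + e * a3)) * (D0 * D1 * (D2 * D3)) =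
      k * ((A * D1 + e * B * D0) * (D2 * D3) + h * ((C * D3 + e * D * D2) * (D0 * D1))) := by
  linear_combination (D1 * D2 * D3) * h0 + (e * D0 * D2 * D3) * h1 + (h * D0 * D1 * D3) * h2 +
    (h * e * D0 * D1 * D2) * h3

/-- the sum and the difference of the values at `z` and `-z` -/
theorem ge_pair (h : NL L Ω s) {e : ℂ} {ε : ℤ} (he : Ue e ε) : ∃ r φ : ℂ, r ^ 2 = 2 * (1 + s) ∧
    φ ^ 2 = 4 * (X0 e s r - 1) ∧
    (∀ c, Ge L Ω e c 0 = φ * (A0 e s r + e * A1 e s r + c * (A2 e s r + e * A3 e s r))) ∧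
    ∀ c z, OT L z →
    2 * (Ge L Ω e c z + Ge L Ω e c (-z)) *
      ((X0 e s r - ℘[L] (2 * z)) * (X1 e s r - ℘[L] (2 * z)) *
        ((X2 e s r - ℘[L] (2 * z)) * (X3 e s r - ℘[L] (2 * z)))) =
      (φ * DA L z) * ((A0 e s r * (X1 e s r - ℘[L] (2 * z)) + e * A1 e s r * (X0 e s r - ℘[L] (2 * z))) *
        ((X2 e s r - ℘[L] (2 * z)) * (X3 e s r - ℘[L] (2 * z))) +
        c * ((A2 e s r * (X3 e s r - ℘[L] (2 * z)) + e * A3 e s r * (X2 e s r - ℘[L] (2 * z))) *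
        ((X0 e s r - ℘[L] (2 * z)) * (X1 e s r - ℘[L] (2 * z))))) ∧
    2 * (Ge L Ω e c z - Ge L Ω e c (-z)) *
      ((X0 e s r - ℘[L] (2 * z)) * (X1 e s r - ℘[L] (2 * z)) *
        ((X2 e s r - ℘[L] (2 * z)) * (X3 e s r - ℘[L] (2 * z)))) =
      (-(φ * AA L z)) * ((B0 e s r * (X1 e s r - ℘[L] (2 * z)) + e * B1 e s r * (X0 e s r - ℘[L] (2 * z))) *
        ((X2 e s r - ℘[L] (2 * z)) * (X3 e s r - ℘[L] (2 * z))) +
        c * ((B2 e s r * (X3 e s r - ℘[L] (2 * z)) + e * B3 e s r * (X2 e s r - ℘[L] (2 * z))) *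
        ((X0 e s r - ℘[L] (2 * z)) * (X1 e s r - ℘[L] (2 * z))))) := by
  have hg := h.gl
  obtain ⟨r, φ, hr, hφ, p0, p1, p2, p3⟩ := exists_pts h he
  refine ⟨r, φ, hr, hφ, ?_, ?_⟩
  · intro c
    rw [Ge_eq, zero_add, zero_add, zero_add, zero_add, p0.aa, p1.aa, p2.aa, p3.aa]
    ring
  intro c z hz
  have hzo : Odd' L z := hz.ex
  have hz0 := odd_zero (L := L)
  have n2 : 2 * z ∉ L.lattice := hz.two hg
  obtain ⟨a0, b0⟩ := p0.pair hg n2
    (nmem16 hg hz0 0 2 (-2 * ε) (by decide) (by rw [he.eq]; push_cast; ring))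
    (nmem16 hg hzo 2 2 (-2 * ε) (by decide) (by rw [he.eq]; push_cast; ring))
    (nmem16 hg hzo 1 (-1) ε (by decide) (by rw [he.eq]; push_cast; ring))
    (nmem16 hg hzo (-2) 2 (-2 * ε) (by decide) (by rw [he.eq]; push_cast; ring))
    (nmem16 hg hzo (-1) (-1) ε (by decide) (by rw [he.eq]; push_cast; ring))
  obtain ⟨a1, b1⟩ := p1.pair hg n2
    (nmem16 hg hz0 0 10 (-10 * ε) (by decide) (by rw [he.eq]; push_cast; ring))
    (nmem16 hg hzo 2 10 (-10 * ε) (by decide) (by rw [he.eq]; push_cast; ring))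
    (nmem16 hg hzo 1 (-5) (5 * ε) (by decide) (by rw [he.eq]; push_cast; ring))
    (nmem16 hg hzo (-2) 10 (-10 * ε) (by decide) (by rw [he.eq]; push_cast; ring))
    (nmem16 hg hzo (-1) (-5) (5 * ε) (by decide) (by rw [he.eq]; push_cast; ring))
  obtain ⟨a2, b2⟩ := p2.pair hg n2
    (nmem16 hg hz0 0 10 (-2 * ε) (by decide) (by rw [he.eq]; push_cast; ring))
    (nmem16 hg hzo 2 10 (-2 * ε) (by decide) (by rw [he.eq]; push_cast; ring))
    (nmem16 hg hzo 1 (-5) ε (by decide) (by rw [he.eq]; push_cast; ring))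
    (nmem16 hg hzo (-2) 10 (-2 * ε) (by decide) (by rw [he.eq]; push_cast; ring))
    (nmem16 hg hzo (-1) (-5) ε (by decide) (by rw [he.eq]; push_cast; ring))
  obtain ⟨a3, b3⟩ := p3.pair hg n2
    (nmem16 hg hz0 0 18 (-10 * ε) (by decide) (by rw [he.eq]; push_cast; ring))
    (nmem16 hg hzo 2 18 (-10 * ε) (by decide) (by rw [he.eq]; push_cast; ring))
    (nmem16 hg hzo 1 (-9) (5 * ε) (by decide) (by rw [he.eq]; push_cast; ring))
    (nmem16 hg hzo (-2) 18 (-10 * ε) (by decide) (by rw [he.eq]; push_cast; ring))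
    (nmem16 hg hzo (-1) (-9) (5 * ε) (by decide) (by rw [he.eq]; push_cast; ring))
  constructor
  · have k := comb_alg (e := e) (h := c) (k := φ * DA L z) (A := A0 e s r) (B := A1 e s r)
      (C := A2 e s r) (D := A3 e s r)
      (by rw [a0]; ring) (by rw [a1]; ring) (by rw [a2]; ring) (by rw [a3]; ring)
    rw [← k, Ge_eq, Ge_eq]
    ring
  · have k := comb_alg (e := e) (h := c) (k := -(φ * AA L z)) (A := B0 e s r) (B := B1 e s r)
      (C := B2 e s r) (D := B3 e s r)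
      (by rw [b0]; ring) (by rw [b1]; ring) (by rw [b2]; ring) (by rw [b3]; ring)
    rw [← k, Ge_eq, Ge_eq]
    ring

theorem core0 (h : NL L Ω s) {e : ℂ} {ε : ℤ} (he : Ue e ε) : ∃ κ : ℂ,
    κ ^ 4 = (1 - e) * 2 ^ 15 ∧ 4 * Ge L Ω e (-e) 0 ^ 2 = κ ^ 2 ∧ ∀ z : ℂ, OT L z → ∀ x : ℂ,
    x = ℘[L] (2 * z) →
    (Ge L Ω e (-e) z + Ge L Ω e (-e) (-z)) ^ 2 * (x ^ 4 - 4 * e * x ^ 3 + 2 * x ^ 2 + 4 * e * x + 1) ^ 2 =
      κ ^ 2 * (x * (x + 1)) * ((x - 1) * (x ^ 2 + 2 * (1 - e) * x + 1)) ^ 2 ∧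
    (Ge L Ω e (-e) z - Ge L Ω e (-e) (-z)) ^ 2 * (x ^ 4 - 4 * e * x ^ 3 + 2 * x ^ 2 + 4 * e * x + 1) ^ 2 =
      κ ^ 2 * (x - 1) * ((x + 1) * (x ^ 2 - 2 * (1 - e) * x + 1)) ^ 2 := by
  have hg := h.gl
  obtain ⟨r, φ, hr, hφ, h0, h1⟩ := ge_pair h he
  have he2 := he.sq
  have hs := h.ss
  refine ⟨2 * φ * Nu0 e s r, ?_, ?_, ?_⟩
  · have k := kn04 he2 hs hr
    have e4 : φ ^ 4 = 16 * (X0 e s r - 1) ^ 2 := by
      calc φ ^ 4 = (φ ^ 2) ^ 2 := by ring
        _ = _ := by rw [hφ]; ring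
    rw [mul_pow, mul_pow, e4]
    linear_combination 256 * k
  · rw [h0, kG0 he2 hs hr]
    ring
  · intro z hz x hx
    obtain ⟨s1, s2⟩ := h1 (-e) z hz
    have n2 : 2 * z ∉ L.lattice := hz.two hg
    rw [← hx, kdn he2 hs hr, kN0 he2 hs hr] at s1
    rw [← hx, kdn he2 hs hr, kM0 he2 hs hr] at s2
    have d1 := da_sq hg n2
    have d2 := aa_sq hg n2
    rw [← hx] at d1 d2
    constructor
    · apply mul_left_cancel₀ (a := (4 : ℂ)) (by norm_num)
      calc _ = (2 * (Ge L Ω e (-e) z + Ge L Ω e (-e) (-z)) *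
            (x ^ 4 - 4 * e * x ^ 3 + 2 * x ^ 2 + 4 * e * x + 1)) ^ 2 := by ring
        _ = φ ^ 2 * DA L z ^ 2 * (Nu0 e s r * ((x - 1) * (x ^ 2 + 2 * (1 - e) * x + 1))) ^ 2 := by
            rw [s1]; ring
        _ = _ := by rw [d1]; ring
    · apply mul_left_cancel₀ (a := (4 : ℂ)) (by norm_num)
      calc _ = (2 * (Ge L Ω e (-e) z - Ge L Ω e (-e) (-z)) *
            (x ^ 4 - 4 * e * x ^ 3 + 2 * x ^ 2 + 4 * e * x + 1)) ^ 2 := by ring
        _ = φ ^ 2 * AA L z ^ 2 * (2 * Nu0 e s r * ((x + 1) * (x ^ 2 - 2 * (1 - e) * x + 1))) ^ 2 := by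
            rw [s2]; ring
        _ = _ := by rw [d2]; ring

theorem core2 (h : NL L Ω s) {e : ℂ} {ε : ℤ} (he : Ue e ε) : ∃ κ : ℂ,
    κ ^ 4 = (1 - e) * 2 ^ 17 ∧ 4 * Ge L Ω e e 0 ^ 2 = 0 ∧ ∀ z : ℂ, OT L z → ∀ x : ℂ,
    x = ℘[L] (2 * z) →
    (Ge L Ω e e z + Ge L Ω e e (-z)) ^ 2 * (x ^ 4 - 4 * e * x ^ 3 + 2 * x ^ 2 + 4 * e * x + 1) ^ 2 =
      κ ^ 2 * (x * (x + 1)) * ((1 + 2 * e) * x ^ 2 - 1) ^ 2 ∧
    (Ge L Ω e e z - Ge L Ω e e (-z)) ^ 2 * (x ^ 4 - 4 * e * x ^ 3 + 2 * x ^ 2 + 4 * e * x + 1) ^ 2 =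
      κ ^ 2 * (x - 1) * (x * (x ^ 2 - 1 - 2 * e)) ^ 2 := by
  have hg := h.gl
  obtain ⟨r, φ, hr, hφ, h0, h1⟩ := ge_pair h he
  have he2 := he.sq
  have hs := h.ss
  refine ⟨2 * φ * Nu2 e s r, ?_, ?_, ?_⟩
  · have k := kn24 he2 hs hr
    have e4 : φ ^ 4 = 16 * (X0 e s r - 1) ^ 2 := by
      calc φ ^ 4 = (φ ^ 2) ^ 2 := by ring
        _ = _ := by rw [hφ]; ring
    rw [mul_pow, mul_pow, e4]
    linear_combination 256 * k
  · rw [h0, kG2 he2 hs hr]
    ring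
  · intro z hz x hx
    obtain ⟨s1, s2⟩ := h1 e z hz
    have n2 : 2 * z ∉ L.lattice := hz.two hg
    rw [← hx, kdn he2 hs hr, kN2 he2 hs hr] at s1
    rw [← hx, kdn he2 hs hr, kM2 he2 hs hr] at s2
    have d1 := da_sq hg n2
    have d2 := aa_sq hg n2
    rw [← hx] at d1 d2
    constructor
    · apply mul_left_cancel₀ (a := (4 : ℂ)) (by norm_num)
      calc _ = (2 * (Ge L Ω e e z + Ge L Ω e e (-z)) *
            (x ^ 4 - 4 * e * x ^ 3 + 2 * x ^ 2 + 4 * e * x + 1)) ^ 2 := by ring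
        _ = φ ^ 2 * DA L z ^ 2 * (Nu2 e s r * ((1 + 2 * e) * x ^ 2 - 1)) ^ 2 := by
            rw [s1]; ring
        _ = _ := by rw [d1]; ring
    · apply mul_left_cancel₀ (a := (4 : ℂ)) (by norm_num)
      calc _ = (2 * (Ge L Ω e e z - Ge L Ω e e (-z)) *
            (x ^ 4 - 4 * e * x ^ 3 + 2 * x ^ 2 + 4 * e * x + 1)) ^ 2 := by ring
        _ = φ ^ 2 * AA L z ^ 2 * (2 * Nu2 e s r * (x * (x ^ 2 - 1 - 2 * e))) ^ 2 := by
            rw [s2]; ring
        _ = _ := by rw [d2]; ring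

open Pool.Agent.D0H43.Q4 in
lemma GO_even {σ : ℕ} (hσ : σ % 2 = 0) (L : PeriodPair) (Ω z : ℂ) :
    GO σ L Ω z = Ge L Ω I (I ^ (3 * σ + 3)) z := by
  have h1 : I ^ (2 * σ + 1) = I := by
    obtain ⟨m, hm⟩ : ∃ m, σ = 2 * m := ⟨σ / 2, by omega⟩
    have : 2 * σ + 1 = 4 * m + 1 := by omega
    rw [this, pow_add, pow_mul, I_pow_four, one_pow, one_mul, pow_one]
  unfold GO PO Ge
  simp only [hσ, if_true, h1]

open Pool.Agent.D0H43.Q4 in
theorem gido0 : S_GIDO0 := by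
  intro σ hσ L Ω s h
  have hI : Ue I 1 := ⟨by push_cast; ring, Or.inl rfl⟩
  have hG := GO_even hσ L Ω
  by_cases h4 : σ % 4 = 0
  · have h3 : I ^ (3 * σ + 3) = -I := by
      obtain ⟨m, hm⟩ : ∃ m, σ = 4 * m := ⟨σ / 4, by omega⟩
      have : 3 * σ + 3 = 4 * (3 * m) + 3 := by omega
      rw [this, pow_add, pow_mul, I_pow_four, one_pow, one_mul, I_pow_three]
    obtain ⟨κ, k1, k2, k3⟩ := core0 h hI
    refine ⟨κ, ?_, ?_, ?_⟩
    · rw [if_pos h4, k1]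
    · rw [if_pos h4, hG, h3, k2]
    · intro z hz
      obtain ⟨k4, k5⟩ := k3 z hz _ rfl
      simp only [hG, h3, dn, pa, pb, h4, if_true]
      exact ⟨k4, k5⟩
  · have h3 : I ^ (3 * σ + 3) = I := by
      obtain ⟨m, hm⟩ : ∃ m, σ = 4 * m + 2 := ⟨σ / 4, by omega⟩
      have : 3 * σ + 3 = 4 * (3 * m + 2) + 1 := by omega
      rw [this, pow_add, pow_mul, I_pow_four, one_pow, one_mul, pow_one]
    have h1 : ¬ σ % 4 = 1 := by omega
    have h2 : σ % 4 = 2 := by omega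
    obtain ⟨κ, k1, k2, k3⟩ := core2 h hI
    refine ⟨κ, ?_, ?_, ?_⟩
    · rw [if_neg h4, k1]
    · rw [if_neg h4, hG, h3, k2]
    · intro z hz
      obtain ⟨k4, k5⟩ := k3 z hz _ rfl
      simp only [hG, h3, dn, pa, pb, h2, if_true]
      simp only [show ¬ (2 = 0) by decide, show ¬ (2 = 1) by decide, if_false]
      exact ⟨k4, k5⟩

/-- translation by `Ω / 2` -/
lemma aa_half (h : NL L Ω s) {w : ℂ} (h2 : 2 * w ∉ L.lattice) (h3 : 2 * (w + Ω / 2) ∉ L.lattice)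
    (h4 : w - Ω / 2 ∉ L.lattice) : AA L (w + Ω / 2) = AA L w := by
  have hg := h.gl
  have hz := odd_zero (L := L)
  have m2 : Ω / 2 ∉ L.lattice := nmem16 hg hz 0 8 0 (by decide) (by push_cast; ring)
  have e2 := hg.eqn m2
  rw [h.e1] at e2
  have d2 : ℘'[L] (Ω / 2) = 0 := by
    apply pow_eq_zero_iff two_ne_zero |>.1
    rw [e2]; ring
  have n3 := GLat.two_notMem h3
  have n2 := GLat.two_notMem h2
  obtain ⟨s1, s2⟩ := add_xy hg h2 m2 n3 h4
  have hne := wp_sub_ne L n2 m2 n3 h4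
  rw [h.e1] at hne
  rw [h.e1, d2] at s1 s2
  have hQ := hg.eqn n2
  have q0 := wp'_ne_zero L h2
  have q1 := wp'_ne_zero L h3
  unfold AA
  rw [div_eq_div_iff q1 q0]
  generalize ℘[L] (w + Ω / 2) = X at s1 ⊢
  generalize ℘'[L] (w + Ω / 2) = Y at s2 ⊢
  generalize ℘[L] w = P at hne s1 s2 ⊢
  generalize ℘'[L] w = Q at s1 s2 ⊢
  have c1 : X * (P - 1) = P + 1 := by
    apply mul_right_cancel₀ hne
    linear_combination s1
  have c2 : Y * (P - 1) ^ 2 = -2 * Q := by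
    apply mul_right_cancel₀ hne
    linear_combination s2
  apply mul_right_cancel₀ (pow_ne_zero 2 hne)
  linear_combination (-2 * Q * (X * (P - 1) + (P + 1)) + 4 * Q * (P - 1)) * c1 +
    (2 * (P ^ 2 - 2 * P - 1)) * c2

/-- translation by `i Ω / 2` -/
lemma aa_halfI (h : NL L Ω s) {w : ℂ} (h2 : 2 * w ∉ L.lattice) (h3 : 2 * (w + I * (Ω / 2)) ∉ L.lattice)
    (h4 : w - I * (Ω / 2) ∉ L.lattice) : AA L (w + I * (Ω / 2)) = -AA L w := by
  have hg := h.gl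
  have hz := odd_zero (L := L)
  have m2 : Ω / 2 ∉ L.lattice := nmem16 hg hz 0 8 0 (by decide) (by push_cast; ring)
  have m3 : I * (Ω / 2) ∉ L.lattice := by
    intro h'
    apply m2
    have e1 : Ω / 2 = -(I * (I * (Ω / 2))) := by linear_combination (Ω / 2) * I_sq
    rw [e1]
    exact neg_mem (lat_I hg.lat h')
  have e2 := hg.eqn m2
  rw [h.e1] at e2
  have d2 : ℘'[L] (I * (Ω / 2)) = 0 := by
    rw [wp'_I hg.lat]
    have : ℘'[L] (Ω / 2) = 0 := by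
      apply pow_eq_zero_iff two_ne_zero |>.1
      rw [e2]; ring
    rw [this, mul_zero]
  have x2 : ℘[L] (I * (Ω / 2)) = -1 := by rw [wp_I hg.lat, h.e1]
  have n3 := GLat.two_notMem h3
  have n2 := GLat.two_notMem h2
  obtain ⟨s1, s2⟩ := add_xy hg h2 m3 n3 h4
  have hne := wp_sub_ne L n2 m3 n3 h4
  rw [x2] at hne
  rw [x2, d2] at s1 s2
  have q0 := wp'_ne_zero L h2
  have q1 := wp'_ne_zero L h3
  unfold AA
  rw [← neg_div, div_eq_div_iff q1 q0]
  generalize ℘[L] (w + I * (Ω / 2)) = X at s1 ⊢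
  generalize ℘'[L] (w + I * (Ω / 2)) = Y at s2 ⊢
  generalize ℘[L] w = P at hne s1 s2 ⊢
  generalize ℘'[L] w = Q at s1 s2 ⊢
  have c1 : X * (P + 1) = -(P - 1) := by
    apply mul_right_cancel₀ hne
    linear_combination s1
  have c2 : Y * (P + 1) ^ 2 = -2 * Q := by
    apply mul_right_cancel₀ hne
    linear_combination s2
  have hne' : P + 1 ≠ 0 := by
    intro h0; apply hne; linear_combination h0
  apply mul_right_cancel₀ (pow_ne_zero 2 hne')
  linear_combination (-2 * Q * (X * (P + 1) - (P - 1)) + 4 * Q * (P + 1)) * c1 -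
    (2 * (P ^ 2 - 2 * P - 1)) * c2

open Pool.Agent.D0H43.Q4 in
lemma bb_aa (hg : GLat L Ω) (w : ℂ) : BB L w = I * AA L (I * w) := by
  unfold BB AA
  rw [wp_I hg.lat, wp'_I hg.lat, ← mul_div_assoc, mul_div_mul_left _ _ I_ne_zero]
  congr 1
  ring

open Pool.Agent.D0H43.Q4 in
lemma GO_odd {σ : ℕ} (hσ : σ % 2 = 1) (h : NL L Ω s) {z : ℂ} (hz : Odd' L z) :
    GO σ L Ω z = I * Ge L Ω (-I) (I * I ^ (3 * σ + 3)) (I * z) := by
  have hg := h.gl
  have h1 : I ^ (2 * σ + 1) = -I := by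
    obtain ⟨m, hm⟩ : ∃ m, σ = 2 * m + 1 := ⟨σ / 2, by omega⟩
    have : 2 * σ + 1 = 4 * m + 3 := by omega
    rw [this, pow_add, pow_mul, I_pow_four, one_pow, one_mul, I_pow_three]
  have hzI : Odd' L (I * z) := by
    obtain ⟨D, hD, hD'⟩ := hz
    refine ⟨D, hD, ?_⟩
    have := lat_I hg.lat hD'
    have e : I * (tc D * z) = tc D * (I * z) := by ring
    rwa [e] at this
  have hne : ¬ σ % 2 = 0 := by omega
  unfold GO PO
  rw [if_neg hne, if_neg hne, if_neg hne, if_neg hne, h1, bb_aa hg, bb_aa hg, bb_aa hg, bb_aa hg]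
  have c0 : I * (z + (1 - I) * (Ω / 16)) = I * z + (1 - -I) * (Ω / 16) := by
    linear_combination (-(Ω / 16)) * I_sq
  have c1 : I * (z + (1 - I) * (Ω / 16) + (1 - I) * (Ω / 4)) =
      I * z + (1 - -I) * (Ω / 16) + (1 - -I) * (Ω / 4) := by
    linear_combination (-(Ω / 16) - Ω / 4) * I_sq
  obtain ⟨w1, hw1⟩ : ∃ w, w = I * (z + (1 - I) * (Ω / 16) + Ω / 4) := ⟨_, rfl⟩
  have c2 : w1 + Ω / 2 = I * z + (1 - -I) * (Ω / 16) + Ω / 4 + (1 - -I) * (Ω / 4) := by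
    rw [hw1]
    linear_combination (-(Ω / 16)) * I_sq
  have c3 : I * (z + (1 - I) * (Ω / 16) + Ω / 4 + (1 - I) * (Ω / 4)) =
      (I * z + (1 - -I) * (Ω / 16) + Ω / 4) + I * (Ω / 2) := by
    linear_combination (-(Ω / 16) - Ω / 4) * I_sq
  have a2 : AA L w1 = AA L (I * z + (1 - -I) * (Ω / 16) + Ω / 4 + (1 - -I) * (Ω / 4)) := by
    rw [← c2]
    symm
    have hw1' : w1 = I * z + Ω * ((1 : ℤ) + (5 : ℤ) * I) / 16 := by
      rw [hw1]; push_cast; linear_combination (-(Ω / 16)) * I_sq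
    exact aa_half h
      (nmem16 hg hzI 2 2 10 (by decide) (by rw [hw1']; push_cast; ring))
      (nmem16 hg hzI 2 18 10 (by decide) (by rw [hw1']; push_cast; ring))
      (nmem16 hg hzI 1 (-7) 5 (by decide) (by rw [hw1']; push_cast; ring))
  have a3 : AA L (I * (z + (1 - I) * (Ω / 16) + Ω / 4 + (1 - I) * (Ω / 4))) =
      -AA L (I * z + (1 - -I) * (Ω / 16) + Ω / 4) := by
    rw [c3]
    exact aa_halfI h
      (nmem16 hg hzI 2 10 2 (by decide) (by push_cast; ring))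
      (nmem16 hg hzI 2 10 18 (by decide) (by push_cast; ring))
      (nmem16 hg hzI 1 5 (-7) (by decide) (by push_cast; ring))
  rw [← hw1, a2, a3, c0, c1]
  unfold Ge
  linear_combination (I * I ^ (3 * σ + 3) * AA L (I * z + (1 - -I) * (Ω / 16) + Ω / 4 + (1 - -I) * (Ω / 4))) * I_sq

open Pool.Agent.D0H43.Q4 in
theorem gido1 : S_GIDO1 := by
  intro σ hσ L Ω s h
  have hg := h.gl
  have hI : Ue (-I) (-1) := ⟨by push_cast; ring, Or.inr rfl⟩
  have g0 : GO σ L Ω 0 = I * Ge L Ω (-I) (I * I ^ (3 * σ + 3)) 0 := by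
    rw [GO_odd hσ h odd_zero, mul_zero]
  have hOT : ∀ z, OT L z → OT L (I * z) ∧ Odd' L z ∧ Odd' L (-z) := by
    intro z hz
    obtain ⟨D, hD, hD'⟩ := hz.ex
    refine ⟨⟨?_, D, hD, ?_⟩, ⟨D, hD, hD'⟩, ⟨D, hD, ?_⟩⟩
    · intro h'
      apply hz.nm
      have e1 : z = -(I * (I * z)) := by linear_combination z * I_sq
      rw [e1]
      exact neg_mem (lat_I hg.lat h')
    · have := lat_I hg.lat hD'
      have e : I * (tc D * z) = tc D * (I * z) := by ring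
      rwa [e] at this
    · have := neg_mem hD'
      have e : -(tc D * z) = tc D * (-z) := by ring
      rwa [e] at this
  by_cases h4 : σ % 4 = 3
  · have h3 : I * I ^ (3 * σ + 3) = - -I := by
      obtain ⟨m, hm⟩ : ∃ m, σ = 4 * m + 3 := ⟨σ / 4, by omega⟩
      have : 3 * σ + 3 = 4 * (3 * m + 3) := by omega
      rw [this, pow_mul, I_pow_four, one_pow]; ring
    obtain ⟨κ, k1, k2, k3⟩ := core0 h hI
    refine ⟨I * κ, ?_, ?_, ?_⟩
    · rw [if_pos h4, mul_pow, I_pow_four, k1]; ring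
    · rw [if_pos h4, g0, h3, mul_pow, mul_pow, ← k2]; ring
    · intro z hz
      obtain ⟨z1, z2, z3⟩ := hOT z hz
      have hx : ℘[L] (2 * (I * z)) = -℘[L] (2 * z) := by
        have e : 2 * (I * z) = I * (2 * z) := by ring
        rw [e, wp_I hg.lat]
      obtain ⟨k4, k5⟩ := k3 (I * z) z1 _ hx.symm
      have eneg : I * -z = -(I * z) := by ring
      rw [GO_odd hσ h z2, GO_odd hσ h z3, h3, eneg]
      simp only [dn, pa, pb, h4]
      simp only [show ¬ (3 = 0) by decide, show ¬ (3 = 1) by decide, show ¬ (3 = 2) by decide, if_false]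
      generalize ℘[L] (2 * z) = x at k4 k5 ⊢
      constructor
      · linear_combination (-1) * k4 + ((Ge L Ω (-I) (- -I) (I * z) + Ge L Ω (-I) (- -I) (-(I * z))) ^ 2 *
          (x ^ 4 - 4 * I * x ^ 3 + 2 * x ^ 2 + 4 * I * x + 1) ^ 2 - κ ^ 2 * (x * (x - 1)) *
          ((x + 1) * (x ^ 2 - 2 * (1 + I) * x + 1)) ^ 2) * I_sq
      · linear_combination (-1) * k5 + ((Ge L Ω (-I) (- -I) (I * z) - Ge L Ω (-I) (- -I) (-(I * z))) ^ 2 *
          (x ^ 4 - 4 * I * x ^ 3 + 2 * x ^ 2 + 4 * I * x + 1) ^ 2 + κ ^ 2 * (x + 1) *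
          ((x - 1) * (x ^ 2 + 2 * (1 + I) * x + 1)) ^ 2) * I_sq
  · have h1 : σ % 4 = 1 := by omega
    have h3 : I * I ^ (3 * σ + 3) = -I := by
      obtain ⟨m, hm⟩ : ∃ m, σ = 4 * m + 1 := ⟨σ / 4, by omega⟩
      have : 3 * σ + 3 = 4 * (3 * m + 1) + 2 := by omega
      rw [this, pow_add, pow_mul, I_pow_four, one_pow, one_mul, I_sq]; ring
    obtain ⟨κ, k1, k2, k3⟩ := core2 h hI
    refine ⟨I * κ, ?_, ?_, ?_⟩
    · rw [if_neg h4, mul_pow, I_pow_four, k1]; ring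
    · rw [if_neg h4, g0, h3, mul_pow]
      linear_combination I ^ 2 * k2
    · intro z hz
      obtain ⟨z1, z2, z3⟩ := hOT z hz
      have hx : ℘[L] (2 * (I * z)) = -℘[L] (2 * z) := by
        have e : 2 * (I * z) = I * (2 * z) := by ring
        rw [e, wp_I hg.lat]
      obtain ⟨k4, k5⟩ := k3 (I * z) z1 _ hx.symm
      have eneg : I * -z = -(I * z) := by ring
      rw [GO_odd hσ h z2, GO_odd hσ h z3, h3, eneg]
      simp only [dn, pa, pb, h1]
      simp only [show ¬ (1 = 0) by decide, if_false, if_true]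
      generalize ℘[L] (2 * z) = x at k4 k5 ⊢
      constructor
      · linear_combination (-1) * k4 + ((Ge L Ω (-I) (-I) (I * z) + Ge L Ω (-I) (-I) (-(I * z))) ^ 2 *
          (x ^ 4 - 4 * I * x ^ 3 + 2 * x ^ 2 + 4 * I * x + 1) ^ 2 - κ ^ 2 * (x * (x - 1)) *
          ((1 - 2 * I) * x ^ 2 - 1) ^ 2) * I_sq
      · linear_combination (-1) * k5 + ((Ge L Ω (-I) (-I) (I * z) - Ge L Ω (-I) (-I) (-(I * z))) ^ 2 *
          (x ^ 4 - 4 * I * x ^ 3 + 2 * x ^ 2 + 4 * I * x + 1) ^ 2 + κ ^ 2 * (x + 1) *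
          (x * (x ^ 2 - 1 + 2 * I)) ^ 2) * I_sq

end Pool.Agent.D0H84.Q4
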