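import Pool.Agent.D0H84.Q4.Gid

/-!
Project Q4, class `b = 1`: the addition formula for `AA`.
-/

set_option autoImplicit false

open Filter Complex
open scoped Topology PeriodPair
open H667R3 hiding sq
open Pool.Agent.TH936.CM Pool.Agent.W192.HK

namespace Pool.Agent.D0H84.Q4

open H385 (ZI RQ im1 nrm)
open Pool.Agent.H304R3.HK (tc HC LH)
open Pool.Agent.Y699
open Pool.Agent.W164.RC (tc_mul)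
open Pool.Agent.D0H10.Q4

section alg

lemma add_alg {P Q p q X Y : ℂ} (hQ : Q ^ 2 = 4 * P ^ 3 - 4 * P) (hd : P - p ≠ 0)
    (h1 : X = P - ((6 * P ^ 2 - 2) * (P - p) - (Q - q) * Q) / (2 * (P - p) ^ 2))
    (h2 : Y = Q -
      (((12 * P * Q) * (P - p) + (6 * P ^ 2 - 2) * Q
      - ((6 * P ^ 2 - 2) * Q + (Q - q) * (6 * P ^ 2 - 2))) * (2 * (P - p) ^ 2)
      - ((6 * P ^ 2 - 2) * (P - p) - (Q - q) * Q) * (2 * (2 * (P - p) * Q)))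
      / (2 * (P - p) ^ 2) ^ 2) :
    X * (P - p) ^ 2 = (P + p) * (P * p - 1) - Q * q / 2 ∧
    Y * (P - p) ^ 3 = q * (P ^ 3 + 3 * P ^ 2 * p - 3 * P - p) -
      Q * (p ^ 3 + 3 * p ^ 2 * P - 3 * p - P) := by
  obtain ⟨d, hdd⟩ : ∃ d, d = P - p := ⟨_, rfl⟩
  rw [← hdd] at h1 h2 hd ⊢
  constructor
  · have : X * (2 * d ^ 2) = 2 * d ^ 2 * P - ((6 * P ^ 2 - 2) * d - (Q - q) * Q) := by
      rw [h1]; field_simp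
    subst hdd
    linear_combination (1 / 2) * this + (1 / 2) * hQ
  · have h4 : (4 * d) * (Y * d ^ 3) = 4 * d ^ 4 * Q - ((((12 * P * Q) * d + (6 * P ^ 2 - 2) * Q
      - ((6 * P ^ 2 - 2) * Q + (Q - q) * (6 * P ^ 2 - 2))) * (2 * d ^ 2)
      - ((6 * P ^ 2 - 2) * d - (Q - q) * Q) * (2 * (2 * d * Q)))) := by
      rw [h2]; field_simp; ring
    apply mul_left_cancel₀ (a := 4 * d) (mul_ne_zero (by norm_num) hd)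
    rw [h4]
    subst hdd
    linear_combination (-4 * (P - p) * (Q - q)) * hQ

lemma af_alg {P Q p q X Y : ℂ} (hQ : Q ^ 2 = 4 * P ^ 3 - 4 * P) (hq : q ^ 2 = 4 * p ^ 3 - 4 * p)
    (hd : P - p ≠ 0) (hQ0 : Q ≠ 0) (hq0 : q ≠ 0) (hY : Y ≠ 0)
    (h1 : X * (P - p) ^ 2 = (P + p) * (P * p - 1) - Q * q / 2)
    (h2 : Y * (P - p) ^ 3 = q * (P ^ 3 + 3 * P ^ 2 * p - 3 * P - p) -
      Q * (p ^ 3 + 3 * p ^ 2 * P - 3 * p - P)) :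
    (-2 * (X ^ 2 - 2 * X - 1) / Y) * ((-2 * (p ^ 2 - 2 * p - 1) / q) ^ 2 -
      (-2 * (P ^ 2 - 2 * P - 1) / Q) ^ 2) =
    (-2 * (p ^ 2 - 2 * p - 1) / q) * (-4 * (P ^ 2 + 1) * (P ^ 2 + 2 * P - 1) / Q ^ 2) -
    (-2 * (P ^ 2 - 2 * P - 1) / Q) * (-4 * (p ^ 2 + 1) * (p ^ 2 + 2 * p - 1) / q ^ 2) := by
  obtain ⟨N, hN⟩ : ∃ N, N = (P + p) * (P * p - 1) - Q * q / 2 := ⟨_, rfl⟩
  obtain ⟨M, hM⟩ : ∃ M, M = q * (P ^ 3 + 3 * P ^ 2 * p - 3 * P - p) -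
      Q * (p ^ 3 + 3 * p ^ 2 * P - 3 * p - P) := ⟨_, rfl⟩
  rw [← hN] at h1
  rw [← hM] at h2
  have key : -1 * (N ^ 2 - 2 * N * (P - p) ^ 2 - (P - p) ^ 4) *
      ((p ^ 2 - 2 * p - 1) ^ 2 * Q ^ 2 - (P ^ 2 - 2 * P - 1) ^ 2 * q ^ 2) =
      (P - p) * M * ((p ^ 2 - 2 * p - 1) * (P ^ 2 + 1) * (P ^ 2 + 2 * P - 1) * q -
        (P ^ 2 - 2 * P - 1) * (p ^ 2 + 1) * (p ^ 2 + 2 * p - 1) * Q) := by
    subst hN hM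
    linear_combination (-4*P^4*p^6 - 8*P^4*p^4 - 8*P^4*p^3 + 12*P^4*p^2 + 8*P^4*p + (1/4)*P^4*q^4 + 16*P^3*p^6 + 16*P^3*p^5 - P^3*p^4*q^2 + 4*P^3*p^3*q^2 - 2*P^3*p^2*q^2 - 16*P^3*p^2 - 4*P^3*p*q^2 - 16*P^3*p - P^3*q^4 - P^3*q^2 + 8*P^2*p^6 + P^2*p^5*Q*q - 48*P^2*p^5 - 5*P^2*p^4*Q*q - 16*P^2*p^4 + 6*P^2*p^3*Q*q + 48*P^2*p^3 + 2*P^2*p^2*Q*q + 8*P^2*p^2 - 3*P^2*p*Q*q - P^2*Q*q + (1/2)*P^2*q^4 - 16*P*p^7 + P*p^6*Q*q + 16*P*p^6 - 2*P*p^5*Q*q - 7*P*p^4*Q*q + P*p^4*q^2 + 12*P*p^3*Q*q - 4*P*p^3*q^2 + 16*P*p^3 + 7*P*p^2*Q*q + 2*P*p^2*q^2 - 16*P*p^2 - 2*P*p*Q*q + 4*P*p*q^2 - P*Q*q + P*q^4 + P*q^2 - 8*p^7 - p^6*Q*q + 12*p^6 + 3*p^5*Q*q + 8*p^5 + (-1/4)*p^4*Q^2*q^2 + 2*p^4*Q*q - 8*p^4 + p^3*Q^2*q^2 - 6*p^3*Q*q + (-1/2)*p^2*Q^2*q^2 - 5*p^2*Q*q - 4*p^2 - p*Q^2*q^2 - p*Q*q + (-1/4)*Q^2*q^2 + (1/4)*q^4)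 * hQ + (4*P^7*p^3 + 12*P^7*p + P^7*q^2 + 8*P^7 - 16*P^6*p^3 - 16*P^6*p^2 - P^6*p*Q*q - 16*P^6*p + P^6*Q*q - 4*P^6*q^2 - 16*P^6 - 12*P^5*p^3 - P^5*p^2*Q*q + 48*P^5*p^2 + 2*P^5*p*Q*q - 4*P^5*p - 3*P^5*Q*q + P^5*q^2 - 8*P^5 + 16*P^4*p^4 + 5*P^4*p^2*Q*q + 32*P^4*p^2 + 7*P^4*p*Q*q - 2*P^4*Q*q + 8*P^4*q^2 + 16*P^4 + 8*P^3*p^4 - 4*P^3*p^3 - 6*P^3*p^2*Q*q - 48*P^3*p^2 - 12*P^3*p*Q*q - 12*P^3*p + 6*P^3*Q*q - P^3*q^2 - 16*P^2*p^4 + 16*P^2*p^3 - 2*P^2*p^2*Q*q - 16*P^2*p^2 - 7*P^2*p*Q*q + 16*P^2*p + 5*P^2*Q*q - 4*P^2*q^2 - 8*P*p^4 + 12*P*p^3 + 3*P*p^2*Q*q + 2*P*p*Q*q + 4*P*p + P*Q*q - P*q^2 + p^2*Q*q + p*Q*q) * hq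
  have hd4 : (P - p) ^ 4 ≠ 0 := pow_ne_zero _ hd
  have key2 : -1 * (X ^ 2 - 2 * X - 1) *
      ((p ^ 2 - 2 * p - 1) ^ 2 * Q ^ 2 - (P ^ 2 - 2 * P - 1) ^ 2 * q ^ 2) =
      Y * ((p ^ 2 - 2 * p - 1) * (P ^ 2 + 1) * (P ^ 2 + 2 * P - 1) * q -
        (P ^ 2 - 2 * P - 1) * (p ^ 2 + 1) * (p ^ 2 + 2 * p - 1) * Q) := by
    apply mul_left_cancel₀ hd4
    have e1 : (P - p) ^ 4 * (X ^ 2 - 2 * X - 1) = N ^ 2 - 2 * N * (P - p) ^ 2 - (P - p) ^ 4 := by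
      rw [← h1]; ring
    have e2 : (P - p) ^ 4 * Y = (P - p) * M := by
      rw [← h2]; ring
    calc (P - p) ^ 4 * (-1 * (X ^ 2 - 2 * X - 1) *
      ((p ^ 2 - 2 * p - 1) ^ 2 * Q ^ 2 - (P ^ 2 - 2 * P - 1) ^ 2 * q ^ 2))
        = -1 * ((P - p) ^ 4 * (X ^ 2 - 2 * X - 1)) *
      ((p ^ 2 - 2 * p - 1) ^ 2 * Q ^ 2 - (P ^ 2 - 2 * P - 1) ^ 2 * q ^ 2) := by ring
      _ = ((P - p) ^ 4 * Y) * ((p ^ 2 - 2 * p - 1) * (P ^ 2 + 1) * (P ^ 2 + 2 * P - 1) * q -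
        (P ^ 2 - 2 * P - 1) * (p ^ 2 + 1) * (p ^ 2 + 2 * p - 1) * Q) := by rw [e1, e2, key]
      _ = _ := by ring
  generalize X ^ 2 - 2 * X - 1 = A at key2 ⊢
  generalize p ^ 2 - 2 * p - 1 = n at key2 ⊢
  generalize P ^ 2 - 2 * P - 1 = N' at key2 ⊢
  generalize P ^ 2 + 2 * P - 1 = K' at key2 ⊢
  generalize p ^ 2 + 2 * p - 1 = k' at key2 ⊢
  generalize P ^ 2 + 1 = C at key2 ⊢
  generalize p ^ 2 + 1 = c at key2 ⊢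
  have e : ∀ u v : ℂ, u * (Y * Q ^ 2 * q ^ 2) = v * (Y * Q ^ 2 * q ^ 2) → u = v := fun u v h =>
    mul_right_cancel₀ (mul_ne_zero (mul_ne_zero hY (pow_ne_zero 2 hQ0)) (pow_ne_zero 2 hq0)) h
  apply e
  have l1 : (-2 * A / Y) * ((-2 * n / q) ^ 2 - (-2 * N' / Q) ^ 2) * (Y * Q ^ 2 * q ^ 2) =
      8 * (-1 * A * (n ^ 2 * Q ^ 2 - N' ^ 2 * q ^ 2)) := by
    field_simp
    ring
  have l2 : ((-2 * n / q) * (-4 * C * K' / Q ^ 2) - (-2 * N' / Q) * (-4 * c * k' / q ^ 2)) *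
      (Y * Q ^ 2 * q ^ 2) = 8 * (Y * (n * C * K' * q - N' * c * k' * Q)) := by
    field_simp
    ring
  rw [l1, l2, key2]

lemma dup_alg {P Q X Y : ℂ} (hQ : Q ^ 2 = 4 * P ^ 3 - 4 * P) (hQ0 : Q ≠ 0)
    (h1 : X = -2 * P + (6 * P ^ 2 - 2) ^ 2 / (4 * Q ^ 2))
    (h2 : Y = (-2 * Q +
      ((2 * (6 * P ^ 2 - 2) * (12 * P * Q)) * (4 * Q ^ 2)
        - (6 * P ^ 2 - 2) ^ 2 * (4 * (2 * Q * (6 * P ^ 2 - 2))))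
      / (4 * Q ^ 2) ^ 2) / 2) :
    Q ^ 2 * X = (P ^ 2 + 1) ^ 2 ∧
    Q ^ 3 * Y = 2 * (P ^ 2 + 1) * (P ^ 2 - 2 * P - 1) * (P ^ 2 + 2 * P - 1) := by
  constructor
  · have : 4 * (Q ^ 2 * X) = -8 * P * Q ^ 2 + (6 * P ^ 2 - 2) ^ 2 := by
      rw [h1]; field_simp; ring
    linear_combination (1 / 4) * this - 2 * P * hQ
  · have : 16 * (Q ^ 3 * Y) = -16 * Q ^ 4 + ((2 * (6 * P ^ 2 - 2) * (12 * P)) * (4 * Q ^ 2)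
        - (6 * P ^ 2 - 2) ^ 2 * (4 * (2 * (6 * P ^ 2 - 2)))) / 2 := by
      rw [h2]; field_simp; ring
    linear_combination (1 / 16) * this - (Q ^ 2 + 4 * P ^ 3 - 4 * P - 18 * P ^ 3 + 6 * P) * hQ

end alg

variable {L : PeriodPair} {Ω s : ℂ}

/-- the derivative of `AA` -/
noncomputable def DA (L : PeriodPair) (w : ℂ) : ℂ :=
  -4 * (℘[L] w ^ 2 + 1) * (℘[L] w ^ 2 + 2 * ℘[L] w - 1) / ℘'[L] w ^ 2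

lemma wp_sub_ne (L : PeriodPair) {z t : ℂ} (hz : z ∉ L.lattice) (ht : t ∉ L.lattice)
    (h1 : z + t ∉ L.lattice) (h2 : z - t ∉ L.lattice) : ℘[L] z - ℘[L] t ≠ 0 := by
  rw [sub_ne_zero, Ne, wp_eq_iff L hz ht]
  tauto

/-- the addition formulas -/
lemma add_xy (hg : GLat L Ω) {z t : ℂ} (hz : 2 * z ∉ L.lattice) (ht : t ∉ L.lattice)
    (h1 : z + t ∉ L.lattice) (h2 : z - t ∉ L.lattice) :
    ℘[L] (z + t) * (℘[L] z - ℘[L] t) ^ 2 =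
      (℘[L] z + ℘[L] t) * (℘[L] z * ℘[L] t - 1) - ℘'[L] z * ℘'[L] t / 2 ∧
    ℘'[L] (z + t) * (℘[L] z - ℘[L] t) ^ 3 =
      ℘'[L] t * (℘[L] z ^ 3 + 3 * ℘[L] z ^ 2 * ℘[L] t - 3 * ℘[L] z - ℘[L] t) -
      ℘'[L] z * (℘[L] t ^ 3 + 3 * ℘[L] t ^ 2 * ℘[L] z - 3 * ℘[L] t - ℘[L] z) := by
  have nz := GLat.two_notMem hz
  have hadd := wp_add L hz ht h1 h2
  have hadd' := wp'_add L hz ht h1 h2
  rw [hg.g2] at hadd hadd'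
  have e4 : (4 : ℂ) / 2 = 2 := by norm_num
  rw [e4] at hadd hadd'
  exact add_alg (hg.eqn nz) (wp_sub_ne L nz ht h1 h2) hadd hadd'

/-- the duplication formulas -/
lemma dup_xy (hg : GLat L Ω) {z : ℂ} (hz : 2 * z ∉ L.lattice) :
    ℘'[L] z ^ 2 * ℘[L] (2 * z) = (℘[L] z ^ 2 + 1) ^ 2 ∧
    ℘'[L] z ^ 3 * ℘'[L] (2 * z) = 2 * (℘[L] z ^ 2 + 1) * (℘[L] z ^ 2 - 2 * ℘[L] z - 1) *
      (℘[L] z ^ 2 + 2 * ℘[L] z - 1) := by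
  have nz := GLat.two_notMem hz
  have hdup := wp_two L hz
  have hdup' := wp'_two L hz
  rw [hg.g2] at hdup hdup'
  have e4 : (4 : ℂ) / 2 = 2 := by norm_num
  rw [e4] at hdup hdup'
  exact dup_alg (hg.eqn nz) (wp'_ne_zero L hz) hdup hdup'

/-- the addition formula for `AA` -/
theorem aa_add (hg : GLat L Ω) {z t : ℂ} (hz : 2 * z ∉ L.lattice) (ht : 2 * t ∉ L.lattice)
    (h1 : 2 * (z + t) ∉ L.lattice) (h2 : z - t ∉ L.lattice) :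
    AA L (z + t) * (AA L t ^ 2 - AA L z ^ 2) = AA L t * DA L z - AA L z * DA L t := by
  have nz := GLat.two_notMem hz
  have nt := GLat.two_notMem ht
  have nzt := GLat.two_notMem h1
  obtain ⟨a1, a2⟩ := add_xy hg hz nt nzt h2
  exact af_alg (hg.eqn nz) (hg.eqn nt) (wp_sub_ne L nz nt nzt h2) (wp'_ne_zero L hz)
    (wp'_ne_zero L ht) (wp'_ne_zero L h1) a1 a2

lemma aa_neg (L : PeriodPair) (z : ℂ) : AA L (-z) = -AA L z := by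
  unfold AA
  rw [L.weierstrassP_neg, L.derivWeierstrassP_neg, div_neg]

lemma da_neg (L : PeriodPair) (z : ℂ) : DA L (-z) = DA L z := by
  unfold DA
  rw [L.weierstrassP_neg, L.derivWeierstrassP_neg, neg_sq]

lemma aa_sq (hg : GLat L Ω) {z : ℂ} (hz : 2 * z ∉ L.lattice) :
    AA L z ^ 2 = 4 * (℘[L] (2 * z) - 1) := by
  have hQ := hg.eqn (GLat.two_notMem hz)
  have h0 := wp'_ne_zero L hz
  obtain ⟨r1, -⟩ := dup_xy hg hz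
  unfold AA
  rw [div_pow, div_eq_iff (pow_ne_zero 2 h0)]
  linear_combination (-4) * r1 + 4 * hQ

lemma aa_da (hg : GLat L Ω) {z : ℂ} (hz : 2 * z ∉ L.lattice) :
    AA L z * DA L z = 4 * ℘'[L] (2 * z) := by
  have h0 := wp'_ne_zero L hz
  obtain ⟨-, r2⟩ := dup_xy hg hz
  unfold AA DA
  rw [div_mul_div_comm, div_eq_iff (mul_ne_zero h0 (pow_ne_zero 2 h0))]
  linear_combination (-4) * r2

lemma da_sq (hg : GLat L Ω) {z : ℂ} (hz : 2 * z ∉ L.lattice) :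
    DA L z ^ 2 = 16 * (℘[L] (2 * z) * (℘[L] (2 * z) + 1)) := by
  have hQ := hg.eqn (GLat.two_notMem hz)
  have h0 := wp'_ne_zero L hz
  obtain ⟨r1, -⟩ := dup_xy hg hz
  have r3 : ℘'[L] z ^ 2 * (℘[L] (2 * z) + 1) = (℘[L] z ^ 2 + 2 * ℘[L] z - 1) ^ 2 := by
    linear_combination r1 + hQ
  unfold DA
  rw [div_pow, div_eq_iff (pow_ne_zero 2 (pow_ne_zero 2 h0))]
  linear_combination (-16 * (℘[L] z ^ 2 + 2 * ℘[L] z - 1) ^ 2) * r1 -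
    (16 * ℘'[L] z ^ 2 * ℘[L] (2 * z)) * r3

end Pool.Agent.D0H84.Q4
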