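import Pool.Agent.D0H84.Q4.Af

/-!
Project Q4, class `b = 1`: the arithmetic of the field `ℚ(i, √2, √(2 (1 + √2)))` of the points `2 t_j`.
-/

set_option autoImplicit false

namespace Pool.Agent.D0H84.Q4

section kalg

variable {e s r : ℂ}

/-- abscissa -/
noncomputable def X0 (e s r : ℂ) : ℂ := e*s + e*r + e

/-- ordinate -/
noncomputable def Y0 (e s r : ℂ) : ℂ := -e*s*r - 2*e*s - 2*e*r - 4*e + s*r + 2*s + 2*r + 4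

/-- value of `AA` -/
noncomputable def A0 (e s r : ℂ) : ℂ := 1

/-- value of `DA` -/
noncomputable def B0 (e s r : ℂ) : ℂ := -e*s*r - e*s + e*r - s - r

/-- abscissa -/
noncomputable def X1 (e s r : ℂ) : ℂ := e*s - e*r + e

/-- ordinate -/
noncomputable def Y1 (e s r : ℂ) : ℂ := e*s*r - 2*e*s + 2*e*r - 4*e - s*r + 2*s - 2*r + 4

/-- value of `AA` -/
noncomputable def A1 (e s r : ℂ) : ℂ := (-1/2)*e*s*r + (1/2)*e*s + (1/2)*e*r + (-1/2)*s + (1/2)*r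

/-- value of `DA` -/
noncomputable def B1 (e s r : ℂ) : ℂ := 2*s - 2*r + 2

/-- abscissa -/
noncomputable def X2 (e s r : ℂ) : ℂ := -e*s + e + s*r - r

/-- ordinate -/
noncomputable def Y2 (e s r : ℂ) : ℂ := -3*e*s*r + 2*e*s + 4*e*r - 4*e - 3*s*r - 2*s + 4*r + 4

/-- value of `AA` -/
noncomputable def A2 (e s r : ℂ) : ℂ := (-1/2)*e*s + e + (1/2)*s*r + (1/2)*s - r

/-- value of `DA` -/
noncomputable def B2 (e s r : ℂ) : ℂ := -2*e*s*r + 2*e*s + 3*e*r - 2*e - 2*s*r - 2*s + 3*r + 2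

/-- abscissa -/
noncomputable def X3 (e s r : ℂ) : ℂ := -e*s + e - s*r + r

/-- ordinate -/
noncomputable def Y3 (e s r : ℂ) : ℂ := 3*e*s*r + 2*e*s - 4*e*r - 4*e + 3*s*r - 2*s - 4*r + 4

/-- value of `AA` -/
noncomputable def A3 (e s r : ℂ) : ℂ := (1/2)*e*s*r + (-1/2)*e*r + (1/2)*s*r + (-1/2)*r

/-- value of `DA` -/
noncomputable def B3 (e s r : ℂ) : ℂ := -e*s*r - e*s + 2*e*r + s - 2

lemma k02 (he : e ^ 2 = -1) (hs : s ^ 2 = 2) (hr : r ^ 2 = 2 * (1 + s)) :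
    4 * (X0 e s r - 1) * (A0 e s r * A2 e s r) = -4 * s := by
  unfold X0 A0 A2
  linear_combination (-2*s^2 - 2*s*r + 2*s + 4*r + 4) * he + (2*e*r + 6*e + 2) * hs + (2*e*s - 4*e) * hr

lemma k13 (he : e ^ 2 = -1) (hs : s ^ 2 = 2) (hr : r ^ 2 = 2 * (1 + s)) :
    4 * (X0 e s r - 1) * (A1 e s r * A3 e s r) = -4 * s := by
  unfold X0 A1 A3
  linear_combination (-e*s^3*r^2 + e*s^3*r - e*s^2*r^3 + 2*e*s^2*r^2 + 2*e*s*r^3 - e*s*r - e*r^3 - e*r^2 - s^3*r^2 - s^2*r^3 + 3*s^2*r^2 - s^2*r + 3*s*r^3 - s*r^2 + s*r - 2*r^3 - r^2) * he + (e*s*r^2 - 2*e*s*r + e*r^3 - e*r^2 - 2*e*r + s*r^2 + r^3 - 3*r^2 - 4*r + 4) * hs + (-e*s*r + 2*e*r - 3*s*r + 2*s + 4*r - 4) * hr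

lemma kab0 (he : e ^ 2 = -1) (hs : s ^ 2 = 2) (hr : r ^ 2 = 2 * (1 + s)) :
    4 * (X0 e s r - 1) * (A0 e s r * B0 e s r) = 4 * Y0 e s r := by
  unfold X0 A0 B0 Y0
  linear_combination (-4*s^2*r - 4*s^2 - 4*s*r^2 - 4*s*r - 4*s + 4*r^2 + 4*r) * he + (-4*e + 4*r + 12) * hs + (-4*e + 4*s - 4) * hr

lemma kab1 (he : e ^ 2 = -1) (hs : s ^ 2 = 2) (hr : r ^ 2 = 2 * (1 + s)) :
    4 * (X0 e s r - 1) * (A1 e s r * B1 e s r) = 4 * Y1 e s r := by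
  unfold X0 A1 B1 Y1
  linear_combination (-4*s^3*r + 4*s^3 - 4*s^2*r + 8*s^2 + 4*s*r^3 - 4*s*r^2 + 4*s*r + 4*s - 4*r^3 + 4*r) * he + (-4*e*s + 8*e*r - 12*e + 4*s*r - 4*s - 4*r + 4) * hs + (-4*e*r + 4*e - 4*s*r + 4*s + 4*r + 4) * hr

lemma kab2 (he : e ^ 2 = -1) (hs : s ^ 2 = 2) (hr : r ^ 2 = 2 * (1 + s)) :
    4 * (X0 e s r - 1) * (A2 e s r * B2 e s r) = 4 * Y2 e s r := by
  unfold X0 A2 B2 Y2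
  linear_combination (4*e*s^3*r - 4*e*s^3 + 4*e*s^2*r^2 - 14*e*s^2*r + 8*e*s^2 - 14*e*s*r^2 + 10*e*s*r + 4*e*s + 12*e*r^2 + 4*e*r - 8*e - 4*s^3*r^2 + 4*s^3*r + 8*s^3 - 4*s^2*r^3 + 14*s^2*r^2 - 12*s^2*r - 4*s^2 + 14*s*r^3 - 18*s*r^2 - 2*s*r - 20*s - 12*r^3 + 8*r^2 + 16*r + 16) * he + (-4*e*s*r^2 - 12*e*s*r - 4*e*r^3 + 2*e*r^2 + 44*e*r + 8*e + 4*s*r^2 - 4*s*r - 8*s + 4*r^3 - 10*r^2 - 8*r + 32) * hs + (14*e*s*r + 12*e*s - 20*e*r - 16*e - 14*s*r + 12*s + 20*r - 16) * hr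

lemma kab3 (he : e ^ 2 = -1) (hs : s ^ 2 = 2) (hr : r ^ 2 = 2 * (1 + s)) :
    4 * (X0 e s r - 1) * (A3 e s r * B3 e s r) = 4 * Y3 e s r := by
  unfold X0 A3 B3 Y3
  linear_combination (-2*e*s^3*r^2 - 2*e*s^3*r - 2*e*s^2*r^3 + 2*e*s^2*r^2 + 6*e*s*r^3 + 4*e*s*r^2 + 2*e*s*r - 4*e*r^3 - 4*e*r^2 - 2*s^3*r^2 - 2*s^2*r^3 + 6*s^2*r^2 - 2*s^2*r + 6*s*r^3 - 8*s*r^2 - 2*s*r - 4*r^3 + 4*r^2 + 4*r) * he + (2*e*s*r^2 + 4*e*s*r + 2*e*r^3 + 2*e*r^2 - 16*e*r - 24*e + 2*s*r^2 + 2*r^3 - 6*r^2 - 12*r + 24) * hs + (-6*e*s*r - 12*e*s + 8*e*r + 16*e - 6*s*r + 12*s + 8*r - 16) * hr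

lemma kx00 (he : e ^ 2 = -1) (hs : s ^ 2 = 2) (hr : r ^ 2 = 2 * (1 + s)) :
    X0 e s r * (e * (r - 1 - s)) = 1 := by
  unfold X0
  linear_combination (-s^2 - 2*s + r^2 - 1) * he + (1) * hs + (-1) * hr

lemma k1a (he : e ^ 2 = -1) (hs : s ^ 2 = 2) (hr : r ^ 2 = 2 * (1 + s)) :
    A1 e s r * (-4 - 4 * (X0 e s r - 1)) = 2 * e * B0 e s r := by
  unfold A1 X0 B0
  linear_combination (2*s^2*r - 2*s^2 + 2*s*r^2 - 2*r^2 - 4*r) * he + (2*e - 2*r - 2) * hs + (-2*e - 2*s + 2) * hr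

lemma kx01 (he : e ^ 2 = -1) (hs : s ^ 2 = 2) (hr : r ^ 2 = 2 * (1 + s)) :
    X1 e s r * X0 e s r ^ 2 = -X0 e s r := by
  unfold X0 X1
  linear_combination (e*s^3 + e*s^2*r + 3*e*s^2 - e*s*r^2 + 2*e*s*r + 3*e*s - e*r^3 - e*r^2 + e*r + e) * he + (-e*s - e*r - e) * hs + (e*s + e*r + e) * hr

lemma ky01 (he : e ^ 2 = -1) (hs : s ^ 2 = 2) (hr : r ^ 2 = 2 * (1 + s)) :
    Y1 e s r * X0 e s r ^ 3 = X0 e s r * Y0 e s r := by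
  unfold X0 Y0 Y1
  linear_combination (e^2*s^4*r - 2*e^2*s^4 + 3*e^2*s^3*r^2 - e^2*s^3*r - 10*e^2*s^3 + 3*e^2*s^2*r^3 + 6*e^2*s^2*r^2 - 15*e^2*s^2*r - 18*e^2*s^2 + e^2*s*r^4 + 7*e^2*s*r^3 - 3*e^2*s*r^2 - 23*e^2*s*r - 14*e^2*s + 2*e^2*r^4 + 2*e^2*r^3 - 6*e^2*r^2 - 10*e^2*r - 4*e^2 - e*s^4*r + 2*e*s^4 - 3*e*s^3*r^2 + e*s^3*r + 10*e*s^3 - 3*e*s^2*r^3 - 6*e*s^2*r^2 + 15*e*s^2*r + 18*e*s^2 - e*s*r^4 - 7*e*s*r^3 + 3*e*s*r^2 + 23*e*s*r + 14*e*s - 2*e*r^4 - 2*e*r^3 + 6*e*r^2 + 10*e*r + 4*e - s^4*r + 2*s^4 - 3*s^3*r^2 + s^3*r + 10*s^3 - 3*s^2*r^3 - 6*s^2*r^2 + 16*s^2*r + 20*s^2 - s*r^4 - 7*s*r^3 + 4*s*r^2 + 28*s*r + 20*s - 2*r^4 - 2*r^3 + 8*r^2 + 16*r + 8) * he + (e*s^2*r - 2*e*s^2 + 3*e*s*r^2 - e*s*r - 6*e*s + 3*e*r^3 + 6*e*r^2 - 4*e + s^2*r - 2*s^2 + 3*s*r^2 - s*r - 6*s + 3*r^3 +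 6*r^2 - 4) * hs + (2*e*s^2 + e*s*r^2 + 7*e*s*r + 8*e*s + 2*e*r^2 + 8*e*r + 8*e + 2*s^2 + s*r^2 + 7*s*r + 8*s + 2*r^2 + 8*r + 8) * hr

lemma kx02 (he : e ^ 2 = -1) (hs : s ^ 2 = 2) (hr : r ^ 2 = 2 * (1 + s)) :
    X2 e s r * (X0 e s r - 1) ^ 2 = (X0 e s r + 1) * (X0 e s r - 1) := by
  unfold X0 X2
  linear_combination (-e*s^3 - 2*e*s^2*r - e*s^2 - e*s*r^2 + e*s + e*r^2 + 2*e*r + e + s^3*r + 2*s^2*r^2 + s^2*r + s^2 + s*r^3 - s*r - 2*s - r^3 - 3*r^2 - 5*r - 3) * he + (e*s - e - s*r - 2*r^2 - 3*r - 1) * hs + (-e*s + e - s*r + r - 1) * hr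

lemma ky02 (he : e ^ 2 = -1) (hs : s ^ 2 = 2) (hr : r ^ 2 = 2 * (1 + s)) :
    Y2 e s r * (X0 e s r - 1) ^ 3 = -Y0 e s r * (2 * X0 e s r - 2) := by
  unfold X0 Y0 Y2
  linear_combination (-3*e^2*s^4*r + 2*e^2*s^4 - 9*e^2*s^3*r^2 + e^2*s^3*r + 2*e^2*s^3 - 9*e^2*s^2*r^3 + 3*e^2*s^2*r - 6*e^2*s^2 - 3*e^2*s*r^4 + 5*e^2*s*r^3 + 9*e^2*s*r^2 - 9*e^2*s*r - 10*e^2*s + 4*e^2*r^4 + 8*e^2*r^3 - 8*e^2*r - 4*e^2 - 3*e*s^4*r - 2*e*s^4 - 9*e*s^3*r^2 - 2*e*s^3*r - 8*e*s^3 - 9*e*s^2*r^3 + 6*e*s^2*r^2 - 3*e*s^2*r + 6*e*s^2 - 3*e*s*r^4 + 10*e*s*r^3 + 9*e*s*r^2 + 24*e*s*r + 28*e*s + 4*e*r^4 + 4*e*r^3 + 12*e*r^2 + 28*e*r + 16*e + 3*s^4*r - 2*s^4 + 9*s^3*r^2 + 8*s^3*r + 4*s^3 + 9*s^2*r^3 + 18*s^2*r^2 + 4*s^2*r + 8*s^2 + 3*s*r^4 + 4*s*r^3 - 20*s*r^2 - 19*s*r - 26*s - 4*r^4 - 20*r^3 - 28*r^2 - 40*r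 - 28) * he + (3*e*s^2*r + 2*e*s^2 + 9*e*s*r^2 + 2*e*s*r + 20*e*s + 9*e*r^3 - 6*e*r^2 - 18*e*r + 8*e - 3*s^2*r + 2*s^2 - 9*s*r^2 - 8*s*r - 16*s - 9*r^3 - 18*r^2 - 18*r - 8) * hs + (6*e*s^2 + 3*e*s*r^2 - 10*e*s*r - 4*e*r^2 + 14*e*r - 16*e - 6*s^2 - 3*s*r^2 - 4*s*r + 4*s + 4*r^2 + 2*r) * hr

lemma kn0 (he : e ^ 2 = -1) (hs : s ^ 2 = 2) (hr : r ^ 2 = 2 * (1 + s)) :
    X0 e s r - 1 ≠ 0 := by
  intro h0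
  have h1 : (X0 e s r - 1) * ((-1/2)*e*s + (1/2)*e + (1/2)*s*r + (-1/2)*r + (-1/2)) = 1 := by
    unfold X0
    linear_combination ((-1/2)*s^2 + (-1/2)*s*r + (1/2)*r + (1/2)) * he + ((1/2)*e*r + e + (1/2)) * hs + ((1/2)*e*s + (-1/2)*e) * hr
  rw [h0, zero_mul] at h1
  exact zero_ne_one h1

lemma kx13 (he : e ^ 2 = -1) (hs : s ^ 2 = 2) (hr : r ^ 2 = 2 * (1 + s)) :
    X3 e s r * (X1 e s r - 1) ^ 2 = (X1 e s r + 1) * (X1 e s r - 1) := by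
  unfold X1 X3
  linear_combination (-e*s^3 + 2*e*s^2*r - e*s^2 - e*s*r^2 + e*s + e*r^2 - 2*e*r + e - s^3*r + 2*s^2*r^2 - s^2*r + s^2 - s*r^3 + s*r - 2*s + r^3 - 3*r^2 + 5*r - 3) * he + (e*s - e + s*r - 2*r^2 + 3*r - 1) * hs + (-e*s + e + s*r - r - 1) * hr

lemma ky13 (he : e ^ 2 = -1) (hs : s ^ 2 = 2) (hr : r ^ 2 = 2 * (1 + s)) :
    Y3 e s r * (X1 e s r - 1) ^ 3 = -Y1 e s r * (2 * X1 e s r - 2) := by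
  unfold X1 Y1 Y3
  linear_combination (3*e^2*s^4*r + 2*e^2*s^4 - 9*e^2*s^3*r^2 - e^2*s^3*r + 2*e^2*s^3 + 9*e^2*s^2*r^3 - 3*e^2*s^2*r - 6*e^2*s^2 - 3*e^2*s*r^4 - 5*e^2*s*r^3 + 9*e^2*s*r^2 + 9*e^2*s*r - 10*e^2*s + 4*e^2*r^4 - 8*e^2*r^3 + 8*e^2*r - 4*e^2 + 3*e*s^4*r - 2*e*s^4 - 9*e*s^3*r^2 + 2*e*s^3*r - 8*e*s^3 + 9*e*s^2*r^3 + 6*e*s^2*r^2 + 3*e*s^2*r + 6*e*s^2 - 3*e*s*r^4 - 10*e*s*r^3 + 9*e*s*r^2 - 24*e*s*r + 28*e*s + 4*e*r^4 - 4*e*r^3 + 12*e*r^2 - 28*e*r + 16*e - 3*s^4*r - 2*s^4 + 9*s^3*r^2 - 8*s^3*r + 4*s^3 - 9*s^2*r^3 + 18*s^2*r^2 - 4*s^2*r + 8*s^2 + 3*s*r^4 - 4*s*r^3 - 20*s*r^2 + 19*s*r - 26*s - 4*r^4 + 20*r^3 - 28*r^2 + 40*r - 28) * he + (-3*e*s^2*r + 2*e*s^2 + 9*e*s*r^2 - 2*e*s*r + 20*e*s - 9*e*r^3 - 6*e*r^2 + 18*e*r + 8*e + 3*s^2*r + 2*s^2 - 9*s*r^2 + 8*s*r - 16*s + 9*r^3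 - 18*r^2 + 18*r - 8) * hs + (6*e*s^2 + 3*e*s*r^2 + 10*e*s*r - 4*e*r^2 - 14*e*r - 16*e - 6*s^2 - 3*s*r^2 + 4*s*r + 4*s + 4*r^2 - 2*r) * hr

lemma kn1 (he : e ^ 2 = -1) (hs : s ^ 2 = 2) (hr : r ^ 2 = 2 * (1 + s)) :
    X1 e s r - 1 ≠ 0 := by
  intro h0
  have h1 : (X1 e s r - 1) * ((-1/2)*e*s + (1/2)*e + (-1/2)*s*r + (1/2)*r + (-1/2)) = 1 := by
    unfold X1
    linear_combination ((-1/2)*s^2 + (1/2)*s*r + (-1/2)*r + (1/2)) * he + ((-1/2)*e*r + e + (1/2)) * hs + ((1/2)*e*s + (-1/2)*e) * hr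
  rw [h0, zero_mul] at h1
  exact zero_ne_one h1

lemma kn00 (he : e ^ 2 = -1) (hs : s ^ 2 = 2) (hr : r ^ 2 = 2 * (1 + s)) : X0 e s r ≠ 0 := by
  intro h0
  have h1 := kx00 he hs hr
  rw [h0, zero_mul] at h1
  exact zero_ne_one h1

variable {x : ℂ}

lemma kq01 (he : e ^ 2 = -1) (hs : s ^ 2 = 2) (hr : r ^ 2 = 2 * (1 + s)) :
    (X0 e s r - x) * (X1 e s r - x) = x ^ 2 - 2 * e * (1 + s) * x - 1 := by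
  unfold X0 X1
  linear_combination (s^2 + 2*s - r^2 + 1) * he + (-1) * hs + (1) * hr

lemma kq23 (he : e ^ 2 = -1) (hs : s ^ 2 = 2) (hr : r ^ 2 = 2 * (1 + s)) :
    (X2 e s r - x) * (X3 e s r - x) = x ^ 2 - 2 * e * (1 - s) * x - 1 := by
  unfold X2 X3
  linear_combination (s^2 - 2*s + 1) * he + (-r^2 + 3) * hs + (2*s - 3) * hr

lemma kdn (he : e ^ 2 = -1) (hs : s ^ 2 = 2) (hr : r ^ 2 = 2 * (1 + s)) :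
    (X0 e s r - x) * (X1 e s r - x) * ((X2 e s r - x) * (X3 e s r - x)) =
      x ^ 4 - 4 * e * x ^ 3 + 2 * x ^ 2 + 4 * e * x + 1 := by
  rw [kq01 he hs hr, kq23 he hs hr]
  linear_combination (-4*x^2*s^2 + 4*x^2) * he + (4*x^2) * hs

lemma kU (he : e ^ 2 = -1) (hs : s ^ 2 = 2) (hr : r ^ 2 = 2 * (1 + s)) :
    A0 e s r * (X1 e s r - x) + e * A1 e s r * (X0 e s r - x) = (1/2)*x*e*s + (-1/2)*x*e*r + (-1/2)*x*s*r + (1/2)*x*s + (1/2)*x*r - x + (-1/2)*e*s*r + (1/2)*e*s + (-1/2)*e*r + e + (-1/2)*s + (-1/2)*r := by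
  unfold A0 A1 X0 X1
  linear_combination ((1/2)*x*s*r + (-1/2)*x*s + (-1/2)*x*r + (-1/2)*e*s^2*r + (1/2)*e*s^2 + (-1/2)*e*s*r^2 + (1/2)*e*s*r + (1/2)*e*s + (1/2)*e*r^2 + (1/2)*e*r + (-1/2)*s^2 + (-1/2)*s + (1/2)*r^2 + (1/2)*r) * he + ((1/2)*e*r + (1/2)*e + (1/2)) * hs + ((1/2)*e*s + (-1/2)*e + (-1/2)) * hr

lemma kV (he : e ^ 2 = -1) (hs : s ^ 2 = 2) (hr : r ^ 2 = 2 * (1 + s)) :
    A2 e s r * (X3 e s r - x) + e * A3 e s r * (X2 e s r - x) = (-1/2)*x*e*s*r + (1/2)*x*e*s + (1/2)*x*e*r - x*e + (-1/2)*x*s + (1/2)*x*r - e*s*r + (3/2)*e*s + (3/2)*e*r - 2*e + (-1/2)*s*r + (-1/2)*s + (1/2)*r + 1 := by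
  unfold A2 A3 X2 X3
  linear_combination ((-1/2)*x*s*r + (1/2)*x*r + (-1/2)*e*s^2*r + e*s*r + (-1/2)*e*r + (1/2)*s^2*r^2 + (-1/2)*s^2*r + (1/2)*s^2 - s*r^2 + s*r + (-3/2)*s + (1/2)*r^2 + (-1/2)*r + 1) * he + ((1/2)*e*r^2 + (1/2)*e*r + (-5/2)*e - r^2 + (9/2)) * hs + (-e*s + (3/2)*e + (5/2)*s + (-7/2)) * hr

lemma kU2 (he : e ^ 2 = -1) (hs : s ^ 2 = 2) (hr : r ^ 2 = 2 * (1 + s)) :
    B0 e s r * (X1 e s r - x) + e * B1 e s r * (X0 e s r - x) = x*e*s*r - x*e*s + x*e*r - 2*x*e + x*s + x*r + e*s - e*r - s*r + s + r - 2 := by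
  unfold B0 B1 X0 X1
  linear_combination (-s^2*r + s^2 + s*r^2 + s*r + 3*s - 3*r^2 + r + 2) * he + (-e + r - 3) * hs + (e - s + 3) * hr

lemma kV2 (he : e ^ 2 = -1) (hs : s ^ 2 = 2) (hr : r ^ 2 = 2 * (1 + s)) :
    B2 e s r * (X3 e s r - x) + e * B3 e s r * (X2 e s r - x) = 2*x*e*s*r - 3*x*e*s - 3*x*e*r + 4*x*e + x*s*r + x*s - x*r - 2*x - e*s*r + e*s + e*r - 2*e - s + r := by
  unfold B2 B3 X2 X3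
  linear_combination (x*s*r + x*s - 2*x*r + e*s^2*r + e*s^2 - 3*e*s*r - e*s + 2*e*r - s^2*r^2 + s^2*r - 3*s^2 + 3*s*r^2 - 4*s*r + 7*s - 2*r^2 + 3*r - 4) * he + (2*e*r^2 - 9*e + 3*r^2 + r - 13) * hs + (-5*e*s + 7*e - 8*s + 11) * hr

/-- the constant -/
noncomputable def Nu0 (e s r : ℂ) : ℂ := e*s - e*r - s*r + s + r - 2

lemma kN0 (he : e ^ 2 = -1) (hs : s ^ 2 = 2) (hr : r ^ 2 = 2 * (1 + s)) :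
    (A0 e s r * (X1 e s r - x) + e * A1 e s r * (X0 e s r - x)) * ((X2 e s r - x) * (X3 e s r - x)) +
      (-e) * ((A2 e s r * (X3 e s r - x) + e * A3 e s r * (X2 e s r - x)) * ((X0 e s r - x) * (X1 e s r - x))) =
      Nu0 e s r * ((x - 1) * (x ^ 2 + 2 * (1 - e) * x + 1)) := by
  rw [kq01 he hs hr, kq23 he hs hr, kU he hs hr, kV he hs hr]
  unfold Nu0
  linear_combination ((1/2)*x^3*s*r + (-1/2)*x^3*s + (-1/2)*x^3*r + x^3 - x^2*e*s^2*r + x^2*e*s^2 - x^2*e*s + x^2*e*r - 2*x^2*e + x^2*s*r + (-3/2)*x^2*s + (-3/2)*x^2*r + 2*x^2 - 2*x*e*s^2*r + 3*x*e*s^2 + x*e*s*r - x*e*s + 3*x*e*r - 4*x*e - 2*x*s^2*r + (-1/2)*x*s*r + (1/2)*x*s + (9/2)*x*r - x - s*r + (3/2)*s + (3/2)*r - 2) * he + (2*x*e*r - 4*x*e + 2*x*r) * hs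

lemma kM0 (he : e ^ 2 = -1) (hs : s ^ 2 = 2) (hr : r ^ 2 = 2 * (1 + s)) :
    (B0 e s r * (X1 e s r - x) + e * B1 e s r * (X0 e s r - x)) * ((X2 e s r - x) * (X3 e s r - x)) +
      (-e) * ((B2 e s r * (X3 e s r - x) + e * B3 e s r * (X2 e s r - x)) * ((X0 e s r - x) * (X1 e s r - x))) =
      -2 * Nu0 e s r * ((x + 1) * (x ^ 2 - 2 * (1 - e) * x + 1)) := by
  rw [kq01 he hs hr, kq23 he hs hr, kU2 he hs hr, kV2 he hs hr]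
  unfold Nu0
  linear_combination (-2*x^3*s*r + 3*x^3*s + 3*x^3*r - 4*x^3 + 4*x^2*e*s^2*r - 6*x^2*e*s^2 - 2*x^2*e*s*r + 2*x^2*e*s - 6*x^2*e*r + 8*x^2*e + 4*x^2*s^2*r + x^2*s*r - x^2*s - 9*x^2*r + 2*x^2 - 2*x*e*s^2*r + 2*x*e*s^2 - 2*x*e*s + 2*x*e*r - 4*x*e + 2*x*s*r - 3*x*s - 3*x*r + 4*x - s*r + s + r - 2) * he + (-4*x^2*e*r + 8*x^2*e - 4*x^2*r) * hs

lemma kG0 (he : e ^ 2 = -1) (hs : s ^ 2 = 2) (hr : r ^ 2 = 2 * (1 + s)) :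
    A0 e s r + e * A1 e s r + (-e) * (A2 e s r + e * A3 e s r) = -Nu0 e s r := by
  unfold A0 A1 A2 A3 Nu0
  linear_combination ((-1/2)*e*s*r + (1/2)*e*r - s*r + s + r - 1) * he

lemma kn04 (he : e ^ 2 = -1) (hs : s ^ 2 = 2) (hr : r ^ 2 = 2 * (1 + s)) :
    (Nu0 e s r ^ 2 * (X0 e s r - 1)) ^ 2 = 128 * (1 - e) := by
  have h1 : Nu0 e s r ^ 2 = -4*e*s + 8*e + 8*s*r - 4*s - 8*r := by
    unfold Nu0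
    linear_combination (s^2 - 2*s*r + r^2) * he + (-2*e*r + 6*e + r^2 - 2*r - 4) * hs + (2*e*s - 2*e - 2*s + 2) * hr
  have h2 : Nu0 e s r ^ 2 * (X0 e s r - 1) = -4*e*s*r + 8*e*r - 4*s*r := by
    rw [h1]
    unfold X0
    linear_combination (-4*s^2 - 4*s*r + 4*s + 8*r + 8) * he + (8*e*r + 12*e + 4) * hs + (8*e*s - 8*e) * hr
  rw [h2]
  linear_combination (16*s^2*r^2 - 64*s*r^2 + 64*r^2) * he + (32*e*r^2 - 128*e + 128) * hs + (-64*e*s + 64*e + 64*s - 64) * hr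

/-- the constant -/
noncomputable def Nu2 (e s r : ℂ) : ℂ := -e*s*r + 2*e + s*r - 2*s - 2*r + 2

lemma kN2 (he : e ^ 2 = -1) (hs : s ^ 2 = 2) (hr : r ^ 2 = 2 * (1 + s)) :
    (A0 e s r * (X1 e s r - x) + e * A1 e s r * (X0 e s r - x)) * ((X2 e s r - x) * (X3 e s r - x)) +
      e * ((A2 e s r * (X3 e s r - x) + e * A3 e s r * (X2 e s r - x)) * ((X0 e s r - x) * (X1 e s r - x))) =
      Nu2 e s r * ((1 + 2 * e) * x ^ 2 - 1) := by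
  rw [kq01 he hs hr, kq23 he hs hr, kU he hs hr, kV he hs hr]
  unfold Nu2
  linear_combination ((-1/2)*x^3*s*r + (1/2)*x^3*s + (1/2)*x^3*r - x^3 + x^2*e*s^2*r - x^2*e*s^2 + x^2*e*s - x^2*e*r + 2*x^2*e + 2*x^2*s^2 - x^2*s*r + (3/2)*x^2*s + (3/2)*x^2*r - 6*x^2 + 2*x*e*s^2*r - 3*x*e*s^2 - x*e*s*r + x*e*s - 3*x*e*r + 4*x*e + 2*x*s^2 + (1/2)*x*s*r + (-1/2)*x*s + (-1/2)*x*r - 3*x + s*r + (-3/2)*s + (-3/2)*r + 2) * he + (-2*x^2*e*r + 2*x^2*e - 2*x^2 - 2*x*e*r + 2*x*e - 2*x) * hs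

lemma kM2 (he : e ^ 2 = -1) (hs : s ^ 2 = 2) (hr : r ^ 2 = 2 * (1 + s)) :
    (B0 e s r * (X1 e s r - x) + e * B1 e s r * (X0 e s r - x)) * ((X2 e s r - x) * (X3 e s r - x)) +
      e * ((B2 e s r * (X3 e s r - x) + e * B3 e s r * (X2 e s r - x)) * ((X0 e s r - x) * (X1 e s r - x))) =
      -2 * Nu2 e s r * (x * (x ^ 2 - 1 - 2 * e)) := by
  rw [kq01 he hs hr, kq23 he hs hr, kU2 he hs hr, kV2 he hs hr]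
  unfold Nu2
  linear_combination (2*x^3*s*r - 3*x^3*s - 3*x^3*r + 4*x^3 - 4*x^2*e*s^2*r + 6*x^2*e*s^2 + 2*x^2*e*s*r - 2*x^2*e*s + 6*x^2*e*r - 8*x^2*e - 4*x^2*s^2 - x^2*s*r + x^2*s + x^2*r + 6*x^2 + 2*x*e*s^2*r - 2*x*e*s^2 + 2*x*e*s - 2*x*e*r + 4*x*e + 4*x*s^2 - 2*x*s*r + 3*x*s + 3*x*r - 12*x + s*r - s - r + 2) * he + (4*x^2*e*r - 4*x^2*e + 4*x^2 - 4*x*e*r + 4*x*e - 4*x) * hs

lemma kG2 (he : e ^ 2 = -1) (hs : s ^ 2 = 2) (hr : r ^ 2 = 2 * (1 + s)) :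
    A0 e s r + e * A1 e s r + e * (A2 e s r + e * A3 e s r) = 0 := by
  unfold A0 A1 A2 A3
  linear_combination ((1/2)*e*s*r + (-1/2)*e*r + 1) * he

lemma kn24 (he : e ^ 2 = -1) (hs : s ^ 2 = 2) (hr : r ^ 2 = 2 * (1 + s)) :
    (Nu2 e s r ^ 2 * (X0 e s r - 1)) ^ 2 = 512 * (1 - e) := by
  have h1 : Nu2 e s r ^ 2 = -8*e*s + 16*e + 16*s*r - 8*s - 16*r := by
    unfold Nu2
    linear_combination (s^2*r^2 - 4*s*r + 4) * he + (-2*e*r^2 + 4*e*r + 8*e - 4*r - 4) * hs + (4*e*s - 4*e - 4*s + 4) * hr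
  have h2 : Nu2 e s r ^ 2 * (X0 e s r - 1) = -8*e*s*r + 16*e*r - 8*s*r := by
    rw [h1]
    unfold X0
    linear_combination (-8*s^2 - 8*s*r + 8*s + 16*r + 16) * he + (16*e*r + 24*e + 8) * hs + (16*e*s - 16*e) * hr
  rw [h2]
  linear_combination (64*s^2*r^2 - 256*s*r^2 + 256*r^2) * he + (128*e*r^2 - 512*e + 512) * hs + (-256*e*s + 256*e + 256*s - 256) * hr

end kalg

end Pool.Agent.D0H84.Q4
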